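import Mathlib

set_option autoImplicit false

open MeasureTheory
open scoped ComplexConjugate

namespace Pool.Agent.MP_7f688b_an

/-- The character `x ↦ exp (-2 π i x)` on the reals. -/
noncomputable def ch (x : ℝ) : ℂ := Complex.exp (-(2 * (Real.pi : ℂ) * Complex.I * (x : ℂ)))

theorem ch_add (x y : ℝ) : ch (x + y) = ch x * ch y := by
  rw [ch, ch, ch, ← Complex.exp_add]
  congr 1
  push_cast
  ring

theorem ch_zero : ch 0 = 1 := by simp [ch]

theorem ch_int (n : ℤ) : ch n = 1 := by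
  rw [ch, Complex.exp_eq_one_iff]
  exact ⟨-n, by push_cast; ring⟩

theorem ch_ne_zero (x : ℝ) : ch x ≠ 0 := Complex.exp_ne_zero _

theorem norm_ch (x : ℝ) : ‖ch x‖ = 1 := by
  have : -(2 * (Real.pi : ℂ) * Complex.I * (x : ℂ)) = ((-(2 * Real.pi * x) : ℝ) : ℂ) * Complex.I := by
    push_cast; ring
  rw [ch, this, Complex.norm_exp_ofReal_mul_I]

theorem ch_eq_one_iff (x : ℝ) : ch x = 1 ↔ ∃ n : ℤ, x = n := by
  constructor
  · intro h
    rw [ch, Complex.exp_eq_one_iff] at h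
    obtain ⟨n, hn⟩ := h
    refine ⟨-n, ?_⟩
    have h2 : (2 * (Real.pi : ℂ) * Complex.I) ≠ 0 := Complex.two_pi_I_ne_zero
    have h3 : (2 * (Real.pi : ℂ) * Complex.I) * ((x : ℂ) + n) = 0 := by
      linear_combination -hn
    rcases mul_eq_zero.mp h3 with h4 | h4
    · exact absurd h4 h2
    · have : ((x + (n : ℝ) : ℝ) : ℂ) = 0 := by push_cast; exact h4
      have h5 : x + (n : ℝ) = 0 := by exact_mod_cast this
      push_cast
      linarith
  · rintro ⟨n, rfl⟩
    exact ch_int n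

theorem ch_ne_one_of_abs_lt {x : ℝ} (h0 : x ≠ 0) (h1 : |x| < 1) : ch x ≠ 1 := by
  rw [Ne, ch_eq_one_iff]
  rintro ⟨n, rfl⟩
  have h2 : |(n : ℝ)| < 1 := h1
  have h3 : |n| < 1 := by exact_mod_cast h2
  have h4 : n = 0 := Int.abs_lt_one_iff.mp h3
  exact h0 (by simp [h4])

theorem continuous_ch : Continuous ch := by
  unfold ch
  fun_prop

theorem ch_neg (x : ℝ) : ch (-x) = conj (ch x) := by
  rw [ch, ch, ← Complex.exp_conj]
  congr 1
  simp [map_ofNat]

/-- Indicator function of the unit interval. -/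
noncomputable def uI (x : ℝ) : ℂ := (Set.Ioc (0 : ℝ) 1).indicator (fun _ => (1 : ℂ)) x

theorem measurable_uI : Measurable uI := measurable_const.indicator measurableSet_Ioc

/-- Ambiguity function of the unit interval. -/
noncomputable def w (t ξ : ℝ) : ℂ := ∫ x : ℝ, (uI x * uI (x - t)) * ch (x * ξ)

theorem w_eq_zero {t : ℝ} (ht : 1 ≤ |t|) (ξ : ℝ) : w t ξ = 0 := by
  have : ∀ x : ℝ, (uI x * uI (x - t)) * ch (x * ξ) = 0 := by
    intro x
    have : uI x * uI (x - t) = 0 := by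
      by_cases h1 : x ∈ Set.Ioc (0 : ℝ) 1
      · by_cases h2 : x - t ∈ Set.Ioc (0 : ℝ) 1
        · exfalso
          rw [Set.mem_Ioc] at h1 h2
          have : |t| < 1 := by rw [abs_lt]; constructor <;> linarith [h1.1, h1.2, h2.1, h2.2]
          linarith
        · rw [uI, uI, Set.indicator_of_notMem h2, mul_zero]
      · rw [uI, Set.indicator_of_notMem h1, zero_mul]
    rw [this, zero_mul]
  rw [w]
  simp only [this, integral_zero]

theorem w_eq_intervalIntegral {t : ℝ} (ht : |t| < 1) (ξ : ℝ) :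
    w t ξ = ∫ x in (max 0 t)..(min 1 (1 + t)), ch (x * ξ) := by
  have hle : max 0 t ≤ min 1 (1 + t) := by
    rw [abs_lt] at ht
    refine max_le (le_min zero_le_one (by linarith)) (le_min (by linarith) (by linarith))
  rw [intervalIntegral.integral_of_le hle, ← integral_indicator measurableSet_Ioc, w]
  refine integral_congr_ae (Filter.Eventually.of_forall fun x => ?_)
  simp only
  have hmem : x ∈ Set.Ioc (max 0 t) (min 1 (1 + t)) ↔
      x ∈ Set.Ioc (0 : ℝ) 1 ∧ x - t ∈ Set.Ioc (0 : ℝ) 1 := by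
    simp only [Set.mem_Ioc, max_lt_iff, le_min_iff]
    constructor
    · rintro ⟨⟨a, b⟩, c, d⟩
      exact ⟨⟨a, c⟩, by linarith, by linarith⟩
    · rintro ⟨⟨a, b⟩, c, d⟩
      exact ⟨⟨a, by linarith⟩, b, by linarith⟩
  by_cases h1 : x ∈ Set.Ioc (0 : ℝ) 1
  · by_cases h2 : x - t ∈ Set.Ioc (0 : ℝ) 1
    · rw [Set.indicator_of_mem (hmem.mpr ⟨h1, h2⟩), uI, uI, Set.indicator_of_mem h1,
        Set.indicator_of_mem h2]
      ring
    · rw [Set.indicator_of_notMem (fun h => h2 (hmem.mp h).2), uI, uI,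
        Set.indicator_of_notMem h2]
      ring
  · rw [Set.indicator_of_notMem (fun h => h1 (hmem.mp h).1), uI, Set.indicator_of_notMem h1]
    ring

theorem integral_ch_mul {a b ξ : ℝ} (hξ : ξ ≠ 0) :
    ∫ x in a..b, ch (x * ξ) = (ch (b * ξ) - ch (a * ξ)) / (-(2 * (Real.pi : ℂ) * Complex.I * (ξ : ℂ))) := by
  have hc : -(2 * (Real.pi : ℂ) * Complex.I * (ξ : ℂ)) ≠ 0 :=
    neg_ne_zero.mpr (mul_ne_zero Complex.two_pi_I_ne_zero (by exact_mod_cast hξ))
  have h1 : ∀ x : ℝ, ch (x * ξ) = Complex.exp ((-(2 * (Real.pi : ℂ) * Complex.I * (ξ : ℂ))) * x) := by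
    intro x
    rw [ch]
    congr 1
    push_cast
    ring
  simp only [h1]
  exact integral_exp_mul_complex hc

theorem w_ne_zero {t ξ : ℝ} (ht : |t| < 1) (hξ : |ξ| < 1) : w t ξ ≠ 0 := by
  rw [w_eq_intervalIntegral ht]
  have hlen : min 1 (1 + t) - max 0 t = 1 - |t| := by
    rcases le_total 0 t with h | h
    · rw [max_eq_right h, min_eq_left (by linarith), abs_of_nonneg h]
    · rw [max_eq_left h, min_eq_right (by linarith), abs_of_nonpos h]; ring
  set A := max 0 t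
  set B := min 1 (1 + t)
  by_cases h0 : ξ = 0
  · subst h0
    simp only [mul_zero, ch_zero]
    rw [intervalIntegral.integral_const, hlen]
    have : ((1 - |t| : ℝ) : ℂ) ≠ 0 := by
      have h1 : (1 - |t| : ℝ) ≠ 0 := by linarith
      exact_mod_cast h1
    simpa using! this
  · rw [integral_ch_mul h0]
    have hc : -(2 * (Real.pi : ℂ) * Complex.I * (ξ : ℂ)) ≠ 0 :=
      neg_ne_zero.mpr (mul_ne_zero Complex.two_pi_I_ne_zero (by exact_mod_cast h0))
    refine div_ne_zero ?_ hc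
    intro h
    have h1 : ch (B * ξ) = ch (A * ξ) * ch ((B - A) * ξ) := by
      rw [← ch_add]; congr 1; ring
    rw [h1] at h
    have h2 : ch (A * ξ) * (ch ((B - A) * ξ) - 1) = 0 := by linear_combination h
    rcases mul_eq_zero.mp h2 with h3 | h3
    · exact ch_ne_zero _ h3
    · have h4 : ch ((B - A) * ξ) = 1 := by linear_combination h3
      rw [hlen] at h4
      refine ch_ne_one_of_abs_lt ?_ ?_ h4
      · exact mul_ne_zero (by linarith) h0
      · rw [abs_mul]
        have h5 : |(1 - |t|)| ≤ 1 := by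
          rw [abs_of_nonneg (by linarith)]
          linarith [abs_nonneg t]
        calc |(1 - |t|)| * |ξ| ≤ 1 * |ξ| := by
              exact mul_le_mul_of_nonneg_right h5 (abs_nonneg _)
          _ < 1 := by linarith

theorem w_zero_int {n : ℤ} (hn : n ≠ 0) : w 0 n = 0 := by
  rw [w_eq_intervalIntegral (by simp), integral_ch_mul (by exact_mod_cast hn)]
  have h1 : ch (min 1 (1 + 0) * (n : ℝ)) = 1 := by
    have : min (1 : ℝ) (1 + 0) * (n : ℝ) = n := by simp
    rw [this, ch_int]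
  have h2 : ch (max 0 0 * (n : ℝ)) = 1 := by
    have : max (0 : ℝ) 0 * (n : ℝ) = 0 := by simp
    rw [this, ch_zero]
  rw [h1, h2]
  simp

/-- The indicator function of the comb `⋃_{b < M} (6b, 6b+1]`. -/
noncomputable def comb (M : ℕ) (x : ℝ) : ℂ := ∑ b : Fin M, uI (x - 6 * (b : ℕ))

theorem measurable_comb (M : ℕ) : Measurable (comb M) := by
  unfold comb
  refine Finset.measurable_sum _ fun b _ => ?_
  exact measurable_uI.comp (by fun_prop)

/-- Ambiguity function of the comb. -/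
noncomputable def cv (M : ℕ) (t ξ : ℝ) : ℂ := ∫ x : ℝ, (comb M x * comb M (x - t)) * ch (x * ξ)

theorem norm_uI_le (x : ℝ) : ‖uI x‖ ≤ 1 := by
  rw [uI]
  by_cases h : x ∈ Set.Ioc (0 : ℝ) 1
  · rw [Set.indicator_of_mem h]; simp
  · rw [Set.indicator_of_notMem h]; simp

theorem integrable_uI : Integrable uI := by
  have : uI = (Set.Ioc (0 : ℝ) 1).indicator (fun _ => (1 : ℂ)) := rfl
  rw [this, integrable_indicator_iff measurableSet_Ioc]
  exact integrableOn_const (by simp)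

theorem integrable_uI_mul (a b ξ : ℝ) : Integrable (fun x : ℝ => (uI (x - a) * uI (x - b)) * ch (x * ξ)) := by
  have h1 : Integrable (fun x : ℝ => uI (x - a)) := integrable_uI.comp_sub_right a
  refine h1.mono ?_ (Filter.Eventually.of_forall fun x => ?_)
  · refine Measurable.aestronglyMeasurable ?_
    refine Measurable.mul (Measurable.mul ?_ ?_) ?_
    · exact measurable_uI.comp (by fun_prop)
    · exact measurable_uI.comp (by fun_prop)
    · exact continuous_ch.measurable.comp (by fun_prop)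
  · rw [norm_mul, norm_mul, norm_ch, mul_one]
    exact mul_le_of_le_one_right (norm_nonneg _) (norm_uI_le _)

theorem integral_uI_shift (a b ξ : ℝ) :
    ∫ x : ℝ, (uI (x - a) * uI (x - b)) * ch (x * ξ) = ch (a * ξ) * w (b - a) ξ := by
  rw [w, ← integral_const_mul, ← integral_add_right_eq_self _ a]
  refine integral_congr_ae (Filter.Eventually.of_forall fun x => ?_)
  simp only
  rw [show x + a - a = x by ring, show x + a - b = x - (b - a) by ring,
    show (x + a) * ξ = x * ξ + a * ξ by ring, ch_add]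
  ring

theorem cv_eq (M : ℕ) (t ξ : ℝ) :
    cv M t ξ = ∑ b : Fin M, ∑ b' : Fin M, ch (6 * (b : ℕ) * ξ) * w (t + 6 * (b' : ℕ) - 6 * (b : ℕ)) ξ := by
  rw [cv]
  have h1 : ∀ x : ℝ, (comb M x * comb M (x - t)) * ch (x * ξ) =
      ∑ b : Fin M, ∑ b' : Fin M, (uI (x - 6 * (b : ℕ)) * uI (x - (t + 6 * (b' : ℕ)))) * ch (x * ξ) := by
    intro x
    rw [comb, comb, Finset.sum_mul_sum, Finset.sum_mul]
    refine Finset.sum_congr rfl fun b _ => ?_
    rw [Finset.sum_mul]
    refine Finset.sum_congr rfl fun b' _ => ?_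
    rw [show x - t - 6 * ((b' : ℕ) : ℝ) = x - (t + 6 * ((b' : ℕ) : ℝ)) by ring]
  simp only [h1]
  rw [integral_finsetSum]
  · refine Finset.sum_congr rfl fun b _ => ?_
    rw [integral_finsetSum]
    · refine Finset.sum_congr rfl fun b' _ => ?_
      rw [integral_uI_shift]
    · intro b' _
      exact integrable_uI_mul _ _ _
  · intro b _
    refine integrable_finsetSum _ fun b' _ => ?_
    exact integrable_uI_mul _ _ _

theorem cv_eq_zero (M : ℕ) {t ξ t' : ℝ} {r : ℤ} (hr : ¬ (3 : ℤ) ∣ r) (ht' : |t'| < 1)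
    (ht : t = 2 * r + t') : cv M t ξ = 0 := by
  rw [cv_eq]
  refine Finset.sum_eq_zero fun b _ => Finset.sum_eq_zero fun b' _ => ?_
  rw [w_eq_zero, mul_zero]
  set k : ℤ := r + 3 * ((b' : ℕ) : ℤ) - 3 * ((b : ℕ) : ℤ) with hk
  have hk0 : k ≠ 0 := by
    intro h
    apply hr
    exact ⟨((b : ℕ) : ℤ) - ((b' : ℕ) : ℤ), by linarith⟩
  have hk1 : 1 ≤ |k| := Int.one_le_abs hk0
  have hk2 : (1 : ℝ) ≤ |(k : ℝ)| := by exact_mod_cast hk1
  have e : t + 6 * ((b' : ℕ) : ℝ) - 6 * ((b : ℕ) : ℝ) = 2 * (k : ℝ) + t' := by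
    rw [ht, hk]; push_cast; ring
  rw [e]
  have h3 : |2 * (k : ℝ)| ≤ |2 * (k : ℝ) + t'| + |t'| := by
    have := abs_sub_le (2 * (k : ℝ) + t') t' 0
    have h4 : 2 * (k : ℝ) = (2 * (k : ℝ) + t') - t' := by ring
    calc |2 * (k : ℝ)| = |(2 * (k : ℝ) + t') - t'| := by rw [← h4]
      _ ≤ |2 * (k : ℝ) + t'| + |t'| := abs_sub _ _
  rw [abs_mul, abs_two] at h3
  linarith

theorem ch_nat_mul (n : ℕ) (x : ℝ) : ch (n * x) = ch x ^ n := by
  induction n with
  | zero => simp [ch_zero]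
  | succ k ih =>
    rw [pow_succ, ← ih, ← ch_add]
    congr 1
    push_cast
    ring

theorem geomIco_ne_zero {a b M : ℕ} {η : ℝ} (hab : a < b) (hM : b - a ≤ M) (hη : |η| * M < 1) :
    ∑ k ∈ Finset.Ico a b, ch η ^ k ≠ 0 := by
  by_cases h1 : ch η = 1
  · rw [h1]
    simp only [one_pow, Finset.sum_const, Nat.card_Ico, nsmul_eq_mul, mul_one]
    have : b - a ≠ 0 := by omega
    exact_mod_cast this
  · rw [geom_sum_Ico h1 hab.le]
    refine div_ne_zero ?_ (sub_ne_zero.mpr h1)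
    have h2 : ch η ^ b = ch η ^ a * ch η ^ (b - a) := by
      rw [← pow_add]; congr 1; omega
    rw [h2]
    have h3 : ch η ^ (b - a) ≠ 1 := by
      rw [← ch_nat_mul]
      refine ch_ne_one_of_abs_lt ?_ ?_
      · refine mul_ne_zero ?_ ?_
        · have : b - a ≠ 0 := by omega
          exact_mod_cast this
        · rintro rfl
          exact h1 ch_zero
      · rw [abs_mul, Nat.abs_cast]
        have h4 : ((b - a : ℕ) : ℝ) ≤ (M : ℝ) := by exact_mod_cast hM
        calc ((b - a : ℕ) : ℝ) * |η| ≤ (M : ℝ) * |η| := mul_le_mul_of_nonneg_right h4 (abs_nonneg _)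
          _ = |η| * M := mul_comm _ _
          _ < 1 := hη
    intro h5
    have h6 : ch η ^ a * (ch η ^ (b - a) - 1) = 0 := by linear_combination h5
    rcases mul_eq_zero.mp h6 with h7 | h7
    · exact pow_ne_zero _ (ch_ne_zero _) h7
    · exact h3 (by linear_combination h7)

theorem cv_six (M : ℕ) {t ξ t' : ℝ} {q : ℤ} (ht' : |t'| < 1) (ht : t = 6 * q + t') :
    cv M t ξ = (∑ b ∈ (Finset.range M).filter (fun b : ℕ => 0 ≤ (b : ℤ) - q ∧ (b : ℤ) - q < M),
      ch (6 * ξ) ^ b) * w t' ξ := by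
  rw [cv_eq, Finset.sum_filter, Finset.sum_mul,
    ← Fin.sum_univ_eq_sum_range (fun b : ℕ => (if 0 ≤ (b : ℤ) - q ∧ (b : ℤ) - q < M then
      ch (6 * ξ) ^ b else 0) * w t' ξ) M]
  refine Finset.sum_congr rfl fun b _ => ?_
  have hne : ∀ b' : Fin M, ((b' : ℕ) : ℤ) ≠ ((b : ℕ) : ℤ) - q →
      ch (6 * ((b : ℕ) : ℝ) * ξ) * w (t + 6 * ((b' : ℕ) : ℝ) - 6 * ((b : ℕ) : ℝ)) ξ = 0 := by
    intro b' hb'
    rw [w_eq_zero, mul_zero]
    set k : ℤ := q + ((b' : ℕ) : ℤ) - ((b : ℕ) : ℤ) with hk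
    have hk0 : k ≠ 0 := by
      intro h
      apply hb'
      linarith
    have hk1 : 1 ≤ |k| := Int.one_le_abs hk0
    have hk2 : (1 : ℝ) ≤ |(k : ℝ)| := by exact_mod_cast hk1
    have e : t + 6 * ((b' : ℕ) : ℝ) - 6 * ((b : ℕ) : ℝ) = 6 * (k : ℝ) + t' := by
      rw [ht, hk]; push_cast; ring
    rw [e]
    have h3 : |6 * (k : ℝ)| ≤ |6 * (k : ℝ) + t'| + |t'| := by
      have h4 : 6 * (k : ℝ) = (6 * (k : ℝ) + t') - t' := by ring
      calc |6 * (k : ℝ)| = |(6 * (k : ℝ) + t') - t'| := by rw [← h4]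
        _ ≤ |6 * (k : ℝ) + t'| + |t'| := abs_sub _ _
    rw [abs_mul] at h3
    norm_num at h3
    linarith
  by_cases hb : 0 ≤ ((b : ℕ) : ℤ) - q ∧ ((b : ℕ) : ℤ) - q < M
  · have hlt : (((b : ℕ) : ℤ) - q).toNat < M := by omega
    rw [Finset.sum_eq_single (⟨(((b : ℕ) : ℤ) - q).toNat, hlt⟩ : Fin M)]
    · rw [if_pos hb]
      have h1 : (((((b : ℕ) : ℤ) - q).toNat : ℕ) : ℤ) = ((b : ℕ) : ℤ) - q := Int.toNat_of_nonneg hb.1
      have h2 : (((((b : ℕ) : ℤ) - q).toNat : ℕ) : ℝ) = ((b : ℕ) : ℝ) - q := by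
        have := congrArg (fun z : ℤ => (z : ℝ)) h1
        push_cast at this
        exact_mod_cast this
      simp only
      rw [h2, ← ch_nat_mul]
      congr 1
      · congr 1; ring
      · congr 1; rw [ht]; ring
    · intro b' _ hb'
      apply hne
      intro h
      apply hb'
      apply Fin.ext
      simp only
      omega
    · intro h
      exact absurd (Finset.mem_univ _) h
  · rw [if_neg hb, zero_mul]
    refine Finset.sum_eq_zero fun b' _ => ?_
    apply hne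
    intro h
    apply hb
    have := b'.2
    omega

theorem cv_ne_zero {M : ℕ} {t ξ t' η : ℝ} {q κ : ℤ} (ht' : |t'| < 1) (ht : t = 6 * q + t')
    (hq : |q| < M) (hξ : |ξ| < 1) (hκ : 6 * ξ = κ + η) (hη : |η| * M < 1) : cv M t ξ ≠ 0 := by
  rw [cv_six M ht' ht]
  refine mul_ne_zero ?_ (w_ne_zero ht' hξ)
  have h1 : ch (6 * ξ) = ch η := by rw [hκ, ch_add, ch_int, one_mul]
  rw [h1]
  have hq' := abs_lt.mp hq
  have h2 : (Finset.range M).filter (fun b : ℕ => 0 ≤ (b : ℤ) - q ∧ (b : ℤ) - q < M) =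
      Finset.Ico (max 0 q).toNat (min (M : ℤ) (M + q)).toNat := by
    ext b
    simp only [Finset.mem_filter, Finset.mem_range, Finset.mem_Ico]
    omega
  rw [h2]
  refine geomIco_ne_zero (M := M) ?_ ?_ hη
  · omega
  · omega

theorem cv_zero (M : ℕ) (ξ : ℝ) :
    cv M 0 ξ = (∑ b : Fin M, ch (6 * ξ) ^ (b : ℕ)) * w 0 ξ := by
  rw [cv_six M (t' := 0) (q := 0) (by simp) (by simp),
    Fin.sum_univ_eq_sum_range (fun b : ℕ => ch (6 * ξ) ^ b) M]
  congr 1
  refine Finset.sum_congr ?_ fun _ _ => rfl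
  ext b
  simp only [Finset.mem_filter, Finset.mem_range]
  omega

end Pool.Agent.MP_7f688b_an
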