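import Mathlib

set_option autoImplicit false

open MeasureTheory FourierTransform SchwartzMap
open scoped ContDiff

namespace Pool.Agent.MP_7f688b_an

section
variable {V : Type*} [NormedAddCommGroup V] [InnerProductSpace ℝ V] [FiniteDimensional ℝ V]
  [MeasurableSpace V] [BorelSpace V]

/-- The `L²` Fourier transform of an `L¹ ∩ L²` function is given by the Fourier integral. -/
theorem fourier_toLp_ae_eq (h : V → ℂ) (h1 : Integrable h) (h2 : MemLp h 2) :
    (𝓕 (h2.toLp h) : Lp ℂ 2 (volume : Measure V)) =ᵐ[volume] (𝓕 h) := by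
  have hcont : Continuous (𝓕 h) :=
    VectorFourier.fourierIntegral_continuous (L := innerₗ V) Real.continuous_fourierChar
      (by exact continuous_inner) h1
  refine ae_eq_of_integral_contDiff_smul_eq ?_ hcont.locallyIntegrable ?_
  · exact (Lp.memLp _).locallyIntegrable (by norm_num)
  · intro g g_diff g_supp
    let gC : V → ℂ := fun x => ((g x : ℝ) : ℂ)
    have gC_diff : ContDiff ℝ ∞ gC := Complex.ofRealCLM.contDiff.comp g_diff
    have gC_supp : HasCompactSupport gC :=
      HasCompactSupport.comp_left (g := fun t : ℝ => (t : ℂ)) g_supp (by simp)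
    let G : 𝓢(V, ℂ) := gC_supp.toSchwartzMap gC_diff
    have hG : ∀ x, G x = ((g x : ℝ) : ℂ) := fun x => rfl
    have e1 : ∫ x, g x • (𝓕 (h2.toLp h) : Lp ℂ 2 (volume : Measure V)) x
        = (Lp.toTemperedDistribution (𝓕 (h2.toLp h) : Lp ℂ 2 (volume : Measure V))) G := by
      rw [Lp.toTemperedDistribution_apply]
      refine integral_congr_ae (Filter.Eventually.of_forall fun x => ?_)
      simp [hG]
    have e2 : (Lp.toTemperedDistribution (𝓕 (h2.toLp h) : Lp ℂ 2 (volume : Measure V))) G
        = (Lp.toTemperedDistribution (h2.toLp h)) (𝓕 G) := by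
      rw [← Lp.fourier_toTemperedDistribution_eq]
      rfl
    have e3 : (Lp.toTemperedDistribution (h2.toLp h)) (𝓕 G) = ∫ x, (𝓕 G) x • h x := by
      rw [Lp.toTemperedDistribution_apply]
      refine integral_congr_ae ?_
      filter_upwards [h2.coeFn_toLp] with x hx
      rw [hx]
    have e4 : ∫ x, (𝓕 G) x • h x = ∫ x, G x • 𝓕 h x := by
      have := VectorFourier.integral_fourierIntegral_smul_eq_flip (L := innerₗ V)
        (μ := (volume : Measure V)) (ν := (volume : Measure V))
        (f := (G : V → ℂ)) (g := h) Real.continuous_fourierChar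
        (by exact continuous_inner) G.integrable h1
      simpa using! this
    rw [e1, e2, e3, e4]
    refine integral_congr_ae (Filter.Eventually.of_forall fun x => ?_)
    simp [hG]

/-- Plancherel for `L¹ ∩ L²` functions. -/
theorem lintegral_fourier_sq (h : V → ℂ) (h1 : Integrable h) (h2 : MemLp h 2) :
    ∫⁻ ξ, ‖𝓕 h ξ‖ₑ ^ 2 = ∫⁻ x, ‖h x‖ₑ ^ 2 := by
  have key := Lp.norm_fourier_eq (E := V) (F := ℂ) (h2.toLp h)
  rw [Lp.norm_def, Lp.norm_def] at key
  have fin1 := Lp.eLpNorm_ne_top (𝓕 (h2.toLp h) : Lp ℂ 2 (volume : Measure V))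
  have fin2 := Lp.eLpNorm_ne_top (h2.toLp h : Lp ℂ 2 (volume : Measure V))
  rw [ENNReal.toReal_eq_toReal_iff' fin1 fin2] at key
  rw [eLpNorm_congr_ae (fourier_toLp_ae_eq h h1 h2), eLpNorm_congr_ae (h2.coeFn_toLp)] at key
  rw [eLpNorm_eq_lintegral_rpow_enorm_toReal (by norm_num) (by norm_num),
    eLpNorm_eq_lintegral_rpow_enorm_toReal (by norm_num) (by norm_num)] at key
  have := congrArg (fun t : ENNReal => t ^ (2 : ℝ)) key
  simp only [← ENNReal.rpow_mul] at this
  simpa using this

end

end Pool.Agent.MP_7f688b_an
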