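import Mathlib
import Pool.Agent.MP_7f688b_an.Plancherel

set_option autoImplicit false

open MeasureTheory FourierTransform
open scoped ComplexConjugate ENNReal

namespace Pool.Agent.MP_7f688b_an

section
variable {V : Type*} [NormedAddCommGroup V] [InnerProductSpace ℝ V] [FiniteDimensional ℝ V]
  [MeasurableSpace V] [BorelSpace V]

/-- The time-frequency shift of the indicator function of `Ω`. -/
noncomputable def gab (Ω : Set V) (p : V × V) (x : V) : ℂ :=
  Ω.indicator (fun _ => (1 : ℂ)) (x - p.1) *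
    Complex.exp (-(2 * (Real.pi : ℂ) * Complex.I * ((inner ℝ x p.2 : ℝ) : ℂ)))

/-- The ambiguity function of the indicator function of `Ω`. -/
noncomputable def amb (Ω : Set V) (v : V × V) : ℂ :=
  ∫ y, (Ω.indicator (fun _ => (1 : ℂ)) y * Ω.indicator (fun _ => (1 : ℂ)) (y - v.1)) *
    Complex.exp (-(2 * (Real.pi : ℂ) * Complex.I * ((inner ℝ y v.2 : ℝ) : ℂ)))

omit [FiniteDimensional ℝ V] [BorelSpace V] [MeasurableSpace V] in
theorem norm_exp_aux (t : ℝ) :
    ‖Complex.exp (-(2 * (Real.pi : ℂ) * Complex.I * (t : ℂ)))‖ = 1 := by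
  have : -(2 * (Real.pi : ℂ) * Complex.I * (t : ℂ)) = ((-(2 * Real.pi * t) : ℝ) : ℂ) * Complex.I := by
    push_cast; ring
  rw [this, Complex.norm_exp_ofReal_mul_I]

omit [FiniteDimensional ℝ V] [BorelSpace V] [MeasurableSpace V] in
theorem conj_exp_aux (t : ℝ) :
    conj (Complex.exp (-(2 * (Real.pi : ℂ) * Complex.I * (t : ℂ)))) =
      Complex.exp (2 * (Real.pi : ℂ) * Complex.I * (t : ℂ)) := by
  rw [← Complex.exp_conj]
  congr 1
  simp [map_ofNat]

set_option linter.unusedSectionVars false in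
theorem conj_ind (Ω : Set V) (x : V) : conj (Ω.indicator (fun _ => (1 : ℂ)) x) =
    Ω.indicator (fun _ => (1 : ℂ)) x := by
  by_cases h : x ∈ Ω <;> simp [h]

theorem integral_gab_mul_conj (Ω : Set V) (p q : V × V) :
    ∫ x, gab Ω p x * conj (gab Ω q x) =
      Complex.exp (-(2 * (Real.pi : ℂ) * Complex.I * ((inner ℝ q.1 (p.2 - q.2) : ℝ) : ℂ))) *
        amb Ω (p - q) := by
  rw [← integral_add_right_eq_self _ q.1, amb, ← integral_const_mul]
  refine integral_congr_ae (Filter.Eventually.of_forall fun x => ?_)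
  simp only [gab, map_mul, conj_ind, conj_exp_aux, Prod.fst_sub, Prod.snd_sub]
  have h1 : x + q.1 - q.1 = x := by abel
  have h2 : x + q.1 - p.1 = x - (p.1 - q.1) := by abel
  rw [h1, h2]
  have h3 : Complex.exp (-(2 * (Real.pi : ℂ) * Complex.I * ((inner ℝ (x + q.1) p.2 : ℝ) : ℂ))) *
      Complex.exp ((2 * (Real.pi : ℂ) * Complex.I * ((inner ℝ (x + q.1) q.2 : ℝ) : ℂ))) =
      Complex.exp (-(2 * (Real.pi : ℂ) * Complex.I * ((inner ℝ q.1 (p.2 - q.2) : ℝ) : ℂ))) *
      Complex.exp (-(2 * (Real.pi : ℂ) * Complex.I * ((inner ℝ x (p.2 - q.2) : ℝ) : ℂ))) := by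
    rw [← Complex.exp_add, ← Complex.exp_add]
    congr 1
    simp only [inner_add_left, inner_sub_right]
    push_cast
    ring
  linear_combination (Ω.indicator (fun _ => (1 : ℂ)) x *
    Ω.indicator (fun _ => (1 : ℂ)) (x - (p.1 - q.1))) * h3

theorem norm_integral_gab_mul_conj (Ω : Set V) (p q : V × V) :
    ‖∫ x, gab Ω p x * conj (gab Ω q x)‖ = ‖amb Ω (p - q)‖ := by
  rw [integral_gab_mul_conj, norm_mul, norm_exp_aux, one_mul]

theorem amb_eq_zero_of_orth (Ω : Set V) (p q : V × V)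
    (h : ∫ x, gab Ω p x * conj (gab Ω q x) = 0) : amb Ω (p - q) = 0 := by
  have := norm_integral_gab_mul_conj Ω p q
  rw [h, norm_zero] at this
  exact norm_eq_zero.mp this.symm

theorem gab_memLp {Ω : Set V} (hΩ : MeasurableSet Ω) (hfin : volume Ω < ⊤) (p : V × V) :
    MemLp (gab Ω p) 2 := by
  have hm : MeasurableSet ((fun x : V => x - p.1) ⁻¹' Ω) := hΩ.preimage (by fun_prop)
  have hv : volume ((fun x : V => x - p.1) ⁻¹' Ω) ≠ ⊤ := by
    rw [(measurePreserving_sub_right volume p.1).measure_preimage hΩ.nullMeasurableSet]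
    exact hfin.ne
  have h1 : MemLp (((fun x : V => x - p.1) ⁻¹' Ω).indicator (fun _ => (1 : ℂ))) 2
      (volume : Measure V) := memLp_indicator_const 2 hm 1 (Or.inr hv)
  refine h1.of_le ?_ (Filter.Eventually.of_forall fun x => ?_)
  · refine AEStronglyMeasurable.mul h1.1 ?_
    refine Continuous.aestronglyMeasurable ?_
    fun_prop
  · rw [gab, norm_mul, norm_exp_aux, mul_one]
    exact le_of_eq (by rfl)

theorem gab_norm_sq {Ω : Set V} (hΩ : MeasurableSet Ω) (p : V × V) :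
    amb Ω (p - p) = ((volume Ω).toReal : ℂ) := by
  simp only [amb, sub_self, Prod.fst_zero, Prod.snd_zero, sub_zero, inner_zero_right]
  have : ∀ y : V, (Ω.indicator (fun _ => (1 : ℂ)) y * Ω.indicator (fun _ => (1 : ℂ)) y) *
    Complex.exp (-(2 * (Real.pi : ℂ) * Complex.I * ((0 : ℝ) : ℂ))) =
      Ω.indicator (fun _ => (1 : ℂ)) y := by
    intro y
    by_cases h : y ∈ Ω <;> simp [h]
  simp_rw [this]
  rw [integral_indicator_const _ hΩ]
  simp [Measure.real]

/-- The element of `L²` given by a time-frequency shift. -/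
noncomputable def G {Ω : Set V} (hΩ : MeasurableSet Ω) (hfin : volume Ω < ⊤) (p : V × V) :
    Lp ℂ 2 (volume : Measure V) := (gab_memLp hΩ hfin p).toLp _

theorem inner_G {Ω : Set V} (hΩ : MeasurableSet Ω) (hfin : volume Ω < ⊤) (p : V × V)
    (f : Lp ℂ 2 (volume : Measure V)) :
    inner ℂ (G hΩ hfin p) f = ∫ x, f x * conj (gab Ω p x) := by
  rw [L2.inner_def]
  refine integral_congr_ae ?_
  filter_upwards [(gab_memLp hΩ hfin p).coeFn_toLp] with x hx
  simp only [G, RCLike.inner_apply]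
  rw [hx]

theorem inner_G_G {Ω : Set V} (hΩ : MeasurableSet Ω) (hfin : volume Ω < ⊤) (p q : V × V) :
    inner ℂ (G hΩ hfin q) (G hΩ hfin p) = ∫ x, gab Ω p x * conj (gab Ω q x) := by
  rw [inner_G]
  refine integral_congr_ae ?_
  filter_upwards [(gab_memLp hΩ hfin p).coeFn_toLp] with x hx
  simp only [G]
  rw [hx]

theorem norm_G_sq {Ω : Set V} (hΩ : MeasurableSet Ω) (hfin : volume Ω < ⊤) (p : V × V) :
    ‖G hΩ hfin p‖ ^ 2 = (volume Ω).toReal := by
  have h := inner_self_eq_norm_sq_to_K (𝕜 := ℂ) (G hΩ hfin p)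
  rw [inner_G_G, integral_gab_mul_conj, gab_norm_sq hΩ] at h
  simp only [sub_self, inner_zero_right, Complex.ofReal_zero, mul_zero, neg_zero,
    Complex.exp_zero, one_mul] at h
  have h' : (((volume Ω).toReal : ℝ) : ℂ) = ((‖G hΩ hfin p‖ ^ 2 : ℝ) : ℂ) := by
    rw [h]; push_cast; rfl
  exact (Complex.ofReal_injective h').symm

variable {Ω : Set V} {S : Set (V × V)}

/-- The normalised Gabor family. -/
noncomputable def nG (hΩ : MeasurableSet Ω) (hfin : volume Ω < ⊤) (S : Set (V × V)) (p : S) :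
    Lp ℂ 2 (volume : Measure V) :=
  (((Real.sqrt (volume Ω).toReal)⁻¹ : ℝ) : ℂ) • G hΩ hfin (p : V × V)

theorem nG_orthonormal (hΩ : MeasurableSet Ω) (hpos : 0 < volume Ω) (hfin : volume Ω < ⊤)
    (horth : ∀ p ∈ S, ∀ q ∈ S, p ≠ q → ∫ x, gab Ω p x * conj (gab Ω q x) = 0) :
    Orthonormal ℂ (nG hΩ hfin S) := by
  have hc : 0 < (volume Ω).toReal := ENNReal.toReal_pos hpos.ne' hfin.ne
  constructor
  · intro p
    rw [nG, norm_smul]
    have h1 := norm_G_sq hΩ hfin (p : V × V)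
    have h2 : ‖G hΩ hfin (p : V × V)‖ = Real.sqrt (volume Ω).toReal := by
      rw [← h1, Real.sqrt_sq (norm_nonneg _)]
    rw [h2, Complex.norm_real, norm_inv, Real.norm_of_nonneg (Real.sqrt_nonneg _)]
    exact inv_mul_cancel₀ (Real.sqrt_pos.mpr hc).ne'
  · intro p q hpq
    simp only [nG, inner_smul_left, inner_smul_right]
    rw [inner_G_G, horth q q.2 p p.2 (fun h => hpq (Subtype.ext h.symm))]
    simp

theorem nG_complete (hΩ : MeasurableSet Ω) (hpos : 0 < volume Ω) (hfin : volume Ω < ⊤)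
    (hcomp : ∀ f : V → ℂ, MemLp f 2 volume →
      (∀ p ∈ S, ∫ x, f x * conj (gab Ω p x) = 0) → f =ᵐ[volume] 0) :
    (Submodule.span ℂ (Set.range (nG hΩ hfin S)))ᗮ = ⊥ := by
  have hc : 0 < (volume Ω).toReal := ENNReal.toReal_pos hpos.ne' hfin.ne
  rw [Submodule.eq_bot_iff]
  intro f hf
  have h0 : (f : V → ℂ) =ᵐ[volume] 0 := by
    refine hcomp f (Lp.memLp f) fun p hp => ?_
    have h1 : inner ℂ (nG hΩ hfin S ⟨p, hp⟩) f = 0 :=
      (Submodule.mem_orthogonal _ _).mp hf _ (Submodule.subset_span ⟨_, rfl⟩)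
    rw [nG, inner_smul_left, mul_eq_zero] at h1
    rcases h1 with h1 | h1
    · exfalso
      rw [map_eq_zero] at h1
      have : (Real.sqrt (volume Ω).toReal)⁻¹ = 0 := by exact_mod_cast h1
      exact (inv_ne_zero (Real.sqrt_pos.mpr hc).ne') this
    · rwa [inner_G] at h1
  exact (Lp.eq_zero_iff_ae_eq_zero).mpr h0

/-- Parseval identity for a Gabor orthogonal basis, applied to the time-frequency shifts of
the window. -/
theorem parseval_amb (hΩ : MeasurableSet Ω) (hpos : 0 < volume Ω) (hfin : volume Ω < ⊤)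
    (horth : ∀ p ∈ S, ∀ q ∈ S, p ≠ q → ∫ x, gab Ω p x * conj (gab Ω q x) = 0)
    (hcomp : ∀ f : V → ℂ, MemLp f 2 volume →
      (∀ p ∈ S, ∫ x, f x * conj (gab Ω p x) = 0) → f =ᵐ[volume] 0) (u : V × V) :
    ∑' p : S, ‖amb Ω (u - p)‖ₑ ^ 2 = (volume Ω) ^ 2 := by
  have hc : 0 < (volume Ω).toReal := ENNReal.toReal_pos hpos.ne' hfin.ne
  let b := HilbertBasis.mkOfOrthogonalEqBot (nG_orthonormal hΩ hpos hfin horth)
    (nG_complete hΩ hpos hfin hcomp)
  have hb : ∀ p : S, b p = nG hΩ hfin S p := fun p => by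
    simp only [b, HilbertBasis.coe_mkOfOrthogonalEqBot]
  have h1 := lp.hasSum_norm (p := 2) (by norm_num) (b.repr (G hΩ hfin u))
  rw [LinearIsometryEquiv.norm_map] at h1
  simp only [ENNReal.toReal_ofNat, Real.rpow_ofNat] at h1
  rw [norm_G_sq] at h1
  have h2 : ∀ p : S, ‖b.repr (G hΩ hfin u) p‖ ^ 2 =
      ((volume Ω).toReal)⁻¹ * ‖amb Ω (u - p)‖ ^ 2 := by
    intro p
    rw [HilbertBasis.repr_apply_apply, hb, nG, inner_smul_left, norm_mul, inner_G_G,
      norm_integral_gab_mul_conj, mul_pow]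
    congr 1
    rw [RCLike.norm_conj, Complex.norm_real, norm_inv, Real.norm_of_nonneg (Real.sqrt_nonneg _),
      inv_pow, Real.sq_sqrt hc.le]
  simp only [h2] at h1
  have h3 := h1.mul_left (volume Ω).toReal
  have h4 : ∀ p : S, (volume Ω).toReal * (((volume Ω).toReal)⁻¹ * ‖amb Ω (u - p)‖ ^ 2) =
      ‖amb Ω (u - p)‖ ^ 2 := fun p => by
    rw [← mul_assoc, mul_inv_cancel₀ hc.ne', one_mul]
  simp only [h4] at h3
  have h5 : ∀ p : S, ‖amb Ω (u - p)‖ₑ ^ 2 = ENNReal.ofReal (‖amb Ω (u - p)‖ ^ 2) := fun p => by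
    rw [ENNReal.ofReal_pow (norm_nonneg _), ofReal_norm]
  simp only [h5]
  rw [← ENNReal.ofReal_tsum_of_nonneg (fun p => by positivity) h3.summable, h3.tsum_eq,
    ENNReal.ofReal_mul hc.le, ENNReal.ofReal_toReal hfin.ne, sq]

/-- A Gabor orthogonal family is countable. -/
theorem countable_of_orth (hΩ : MeasurableSet Ω) (hpos : 0 < volume Ω) (hfin : volume Ω < ⊤)
    (horth : ∀ p ∈ S, ∀ q ∈ S, p ≠ q → ∫ x, gab Ω p x * conj (gab Ω q x) = 0) :
    Countable S := by
  have ho := nG_orthonormal hΩ hpos hfin horth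
  have : Fact ((2 : ℝ≥0∞) ≠ ∞) := ⟨by norm_num⟩
  have hdist : ∀ p q : S, p ≠ q → 1 < dist (nG hΩ hfin S p) (nG hΩ hfin S q) := by
    intro p q hpq
    have h1 : ‖nG hΩ hfin S p - nG hΩ hfin S q‖ ^ 2 = 2 := by
      rw [@norm_sub_sq ℂ, ho.1 p, ho.1 q, ho.2 hpq]
      norm_num
    rw [dist_eq_norm]
    nlinarith [norm_nonneg (nG hΩ hfin S p - nG hΩ hfin S q)]
  refine Pairwise.countable_of_isOpen_disjoint (s := fun p : S => Metric.ball (nG hΩ hfin S p) (1/2))
    ?_ (fun _ => Metric.isOpen_ball) (fun p => ⟨_, Metric.mem_ball_self (by norm_num)⟩)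
  intro p q hpq
  refine Metric.ball_disjoint_ball ?_
  linarith [hdist p q hpq]

theorem measurable_amb (hΩ : MeasurableSet Ω) : Measurable (amb Ω) := by
  have hind : Measurable (Ω.indicator (fun _ => (1 : ℂ))) := measurable_const.indicator hΩ
  have hF : StronglyMeasurable (fun z : (V × V) × V =>
      (Ω.indicator (fun _ => (1 : ℂ)) z.2 * Ω.indicator (fun _ => (1 : ℂ)) (z.2 - z.1.1)) *
        Complex.exp (-(2 * (Real.pi : ℂ) * Complex.I * ((inner ℝ z.2 z.1.2 : ℝ) : ℂ)))) := by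
    refine Measurable.stronglyMeasurable ?_
    refine Measurable.mul (Measurable.mul ?_ ?_) ?_
    · exact hind.comp measurable_snd
    · exact hind.comp (by fun_prop)
    · refine Continuous.measurable ?_
      fun_prop
  exact (hF.integral_prod_right' (ν := (volume : Measure V))).measurable

/-- Fibrewise Plancherel for the ambiguity function. -/
theorem lintegral_amb_snd (hΩ : MeasurableSet Ω) (hfin : volume Ω < ⊤) (t : V) :
    ∫⁻ ξ, ‖amb Ω (t, ξ)‖ₑ ^ 2 =
      ∫⁻ x, Ω.indicator (fun _ => (1 : ℝ≥0∞)) x * Ω.indicator (fun _ => (1 : ℝ≥0∞)) (x - t) := by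
  set h : V → ℂ := fun y => Ω.indicator (fun _ => (1 : ℂ)) y *
    Ω.indicator (fun _ => (1 : ℂ)) (y - t) with hh
  have hset : h = (Ω ∩ (fun x : V => x - t) ⁻¹' Ω).indicator (fun _ => (1 : ℂ)) := by
    funext y
    by_cases h1 : y ∈ Ω <;> by_cases h2 : y - t ∈ Ω <;> simp [hh, h1, h2]
  have hm : MeasurableSet (Ω ∩ (fun x : V => x - t) ⁻¹' Ω) :=
    hΩ.inter (hΩ.preimage (by fun_prop))
  have hv : volume (Ω ∩ (fun x : V => x - t) ⁻¹' Ω) ≠ ⊤ :=
    ((measure_mono Set.inter_subset_left).trans_lt hfin).ne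
  have hi : Integrable h := by
    rw [hset]
    exact (integrable_indicator_iff hm).mpr (integrableOn_const hv)
  have hL2 : MemLp h 2 := by
    rw [hset]
    exact memLp_indicator_const 2 hm 1 (Or.inr hv)
  have hamb : ∀ ξ : V, amb Ω (t, ξ) = 𝓕 h ξ := by
    intro ξ
    rw [amb, Real.fourier_eq']
    refine integral_congr_ae (Filter.Eventually.of_forall fun y => ?_)
    simp only [hh, smul_eq_mul]
    rw [mul_comm]
    congr 1
    congr 1
    push_cast
    ring
  simp only [hamb]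
  rw [lintegral_fourier_sq h hi hL2]
  refine lintegral_congr fun y => ?_
  by_cases h1 : y ∈ Ω <;> by_cases h2 : y - t ∈ Ω <;> simp [hh, h1, h2]

/-- The `L²` norm of the ambiguity function. -/
theorem lintegral_amb_sq (hΩ : MeasurableSet Ω) (hfin : volume Ω < ⊤) :
    ∫⁻ v : V × V, ‖amb Ω v‖ₑ ^ 2 = (volume Ω) ^ 2 := by
  have hmeas : Measurable (fun v : V × V => ‖amb Ω v‖ₑ ^ 2) :=
    (measurable_amb hΩ).enorm.pow_const 2
  have hind : Measurable (Ω.indicator (fun _ => (1 : ℝ≥0∞))) := measurable_const.indicator hΩ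
  rw [Measure.volume_eq_prod, lintegral_prod _ hmeas.aemeasurable]
  simp only [lintegral_amb_snd hΩ hfin]
  rw [lintegral_lintegral_swap]
  · have : ∀ x : V, ∫⁻ t, Ω.indicator (fun _ => (1 : ℝ≥0∞)) x *
        Ω.indicator (fun _ => (1 : ℝ≥0∞)) (x - t) = Ω.indicator (fun _ => volume Ω) x := by
      intro x
      rw [lintegral_const_mul' _ _ (by by_cases h : x ∈ Ω <;> simp [h])]
      rw [lintegral_sub_left_eq_self (Ω.indicator (fun _ => (1 : ℝ≥0∞))) x,
        lintegral_indicator_const hΩ, one_mul]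
      by_cases h : x ∈ Ω <;> simp [h]
    simp only [this]
    rw [lintegral_indicator_const hΩ, sq]
  · refine Measurable.aemeasurable ?_
    refine Measurable.mul ?_ ?_
    · exact hind.comp measurable_snd
    · exact hind.comp (by fun_prop)

/-- **Density bound.** If the indicator function of `Ω` is the window of an orthogonal Gabor
basis indexed by `S`, and every translate of `W` contains at most `N` points of `S`,
then `W` has measure at most `N`. -/
theorem density_bound (hΩ : MeasurableSet Ω) (hpos : 0 < volume Ω) (hfin : volume Ω < ⊤)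
    (horth : ∀ p ∈ S, ∀ q ∈ S, p ≠ q → ∫ x, gab Ω p x * conj (gab Ω q x) = 0)
    (hcomp : ∀ f : V → ℂ, MemLp f 2 volume →
      (∀ p ∈ S, ∫ x, f x * conj (gab Ω p x) = 0) → f =ᵐ[volume] 0)
    {W : Set (V × V)} (hW : MeasurableSet W) (N : ℕ)
    (hN : ∀ v : V × V, ∀ F : Finset (V × V), (∀ p ∈ F, p ∈ S ∧ v + p ∈ W) → F.card ≤ N) :
    volume W ≤ N := by
  have hcount : Countable S := countable_of_orth hΩ hpos hfin horth
  have hmeas : Measurable (fun v : V × V => ‖amb Ω v‖ₑ ^ 2) :=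
    (measurable_amb hΩ).enorm.pow_const 2
  have hWm : Measurable (W.indicator (fun _ => (1 : ℝ≥0∞))) := measurable_const.indicator hW
  have e1 : (volume Ω) ^ 2 * volume W = ∫⁻ u, W.indicator (fun _ => (1 : ℝ≥0∞)) u *
      ∑' p : S, ‖amb Ω (u - p)‖ₑ ^ 2 := by
    simp only [parseval_amb hΩ hpos hfin horth hcomp]
    rw [lintegral_mul_const _ hWm, lintegral_indicator_const hW, one_mul, mul_comm]
  have e2 : ∫⁻ u, W.indicator (fun _ => (1 : ℝ≥0∞)) u * ∑' p : S, ‖amb Ω (u - p)‖ₑ ^ 2 =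
      ∑' p : S, ∫⁻ u, W.indicator (fun _ => (1 : ℝ≥0∞)) u * ‖amb Ω (u - p)‖ₑ ^ 2 := by
    rw [← lintegral_tsum]
    · refine lintegral_congr fun u => ?_
      rw [ENNReal.tsum_mul_left]
    · intro p
      refine Measurable.aemeasurable (hWm.mul ?_)
      exact hmeas.comp (by fun_prop)
  have e3 : ∀ p : S, ∫⁻ u, W.indicator (fun _ => (1 : ℝ≥0∞)) u * ‖amb Ω (u - p)‖ₑ ^ 2 =
      ∫⁻ v, W.indicator (fun _ => (1 : ℝ≥0∞)) (v + p) * ‖amb Ω v‖ₑ ^ 2 := by
    intro p
    have : (volume : Measure (V × V)).IsAddRightInvariant := by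
      rw [Measure.volume_eq_prod]
      infer_instance
    rw [← lintegral_add_right_eq_self _ (p : V × V)]
    simp only [add_sub_cancel_right]
  have e4 : ∑' p : S, ∫⁻ v, W.indicator (fun _ => (1 : ℝ≥0∞)) (v + p) * ‖amb Ω v‖ₑ ^ 2 =
      ∫⁻ v, (∑' p : S, W.indicator (fun _ => (1 : ℝ≥0∞)) (v + p)) * ‖amb Ω v‖ₑ ^ 2 := by
    rw [← lintegral_tsum]
    · refine lintegral_congr fun u => ?_
      rw [ENNReal.tsum_mul_right]
    · intro p
      refine Measurable.aemeasurable (Measurable.mul ?_ hmeas)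
      exact hWm.comp (by fun_prop)
  have e5 : ∀ v : V × V, ∑' p : S, W.indicator (fun _ => (1 : ℝ≥0∞)) (v + p) ≤ N := by
    classical
    intro v
    rw [ENNReal.tsum_eq_iSup_sum]
    refine iSup_le fun F => ?_
    have h1 : ∑ p ∈ F, W.indicator (fun _ => (1 : ℝ≥0∞)) (v + (p : V × V)) =
        ((F.filter (fun p : S => v + (p : V × V) ∈ W)).card : ℝ≥0∞) := by
      rw [Finset.card_filter]
      push_cast
      refine Finset.sum_congr rfl fun p _ => ?_
      by_cases h : v + (p : V × V) ∈ W <;> simp [h]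
    rw [h1]
    have h2 := hN v ((F.filter (fun p : S => v + (p : V × V) ∈ W)).map
      (Function.Embedding.subtype _)) (by
        intro p hp
        simp only [Finset.mem_map, Finset.mem_filter, Function.Embedding.subtype_apply] at hp
        obtain ⟨q, ⟨_, hq⟩, rfl⟩ := hp
        exact ⟨q.2, hq⟩)
    rw [Finset.card_map] at h2
    exact_mod_cast h2
  have e6 : (volume Ω) ^ 2 * volume W ≤ (volume Ω) ^ 2 * N := by
    rw [e1, e2]
    simp only [e3]
    rw [e4]
    calc ∫⁻ v, (∑' p : S, W.indicator (fun _ => (1 : ℝ≥0∞)) (v + p)) * ‖amb Ω v‖ₑ ^ 2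
        ≤ ∫⁻ v : V × V, (N : ℝ≥0∞) * ‖amb Ω v‖ₑ ^ 2 := by
          refine lintegral_mono fun v => ?_
          exact mul_le_mul_left (e5 v) _
      _ = (volume Ω) ^ 2 * N := by
          rw [lintegral_const_mul _ hmeas, lintegral_amb_sq hΩ hfin, mul_comm]
  have hc0 : (volume Ω) ^ 2 ≠ 0 := pow_ne_zero _ hpos.ne'
  have hc1 : (volume Ω) ^ 2 ≠ ⊤ := ENNReal.pow_ne_top hfin.ne
  exact (ENNReal.mul_le_mul_iff_right hc0 hc1).mp e6

end

end Pool.Agent.MP_7f688b_an
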