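import Mathlib
import Pool.Agent.MP_7f688b_an.Comb
import Pool.Agent.MP_7f688b_an.Density

set_option autoImplicit false

open MeasureTheory
open scoped ComplexConjugate

namespace Pool.Agent.MP_7f688b_an

/-- The vectors `0, e₁, …, e₅`. -/
def ev (j : Fin 6) (i : Fin 5) : ℤ := if j = i.succ then 1 else 0

theorem ev_injective : ∀ j k : Fin 6, (∀ i, ev j i = ev k i) → j = k := by decide

theorem ev_nonneg (j : Fin 6) (i : Fin 5) : 0 ≤ ev j i := by
  unfold ev; split_ifs <;> norm_num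

theorem ev_le (j : Fin 6) (i : Fin 5) : ev j i ≤ 1 := by
  unfold ev; split_ifs <;> norm_num

/-- The Sidon property modulo `3`. -/
theorem ev_sidon : ∀ j j' k k' : Fin 6, j ≠ j' →
    (∀ i : Fin 5, (ev j i - ev j' i - (ev k i - ev k' i)) % 3 = 0) → k = j ∧ k' = j' := by
  decide

theorem ev_diag : ∀ k k' : Fin 6, (∀ i : Fin 5, (ev k i - ev k' i) % 3 = 0) → k = k' := by
  decide

/-- The corner of a cube of `Om M`. -/
noncomputable def ctr (M : ℕ) (p : Fin 6 × (Fin 5 → Fin M)) (i : Fin 5) : ℝ :=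
  2 * (ev p.1 i : ℝ) + 6 * ((p.2 i : ℕ) : ℝ)

/-- The counterexample: a union of unit cubes with even integer corners. -/
def Om (M : ℕ) : Set (EuclideanSpace ℝ (Fin 5)) :=
  {x | ∃ p : Fin 6 × (Fin 5 → Fin M), ∀ i, x i - ctr M p i ∈ Set.Ioc (0 : ℝ) 1}

theorem ctr_unique {M : ℕ} {p p' : Fin 6 × (Fin 5 → Fin M)} {x : EuclideanSpace ℝ (Fin 5)}
    (h : ∀ i, x i - ctr M p i ∈ Set.Ioc (0 : ℝ) 1) (h' : ∀ i, x i - ctr M p' i ∈ Set.Ioc (0 : ℝ) 1) :
    p = p' := by
  have key : ∀ i, ev p.1 i = ev p'.1 i ∧ p.2 i = p'.2 i := by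
    intro i
    have h1 := h i
    have h2 := h' i
    rw [Set.mem_Ioc] at h1 h2
    have h3 : |ctr M p i - ctr M p' i| < 1 := by
      rw [abs_lt]; constructor <;> linarith [h1.1, h1.2, h2.1, h2.2]
    set k : ℤ := (ev p.1 i - ev p'.1 i) + 3 * (((p.2 i : ℕ) : ℤ) - ((p'.2 i : ℕ) : ℤ)) with hk
    have h4 : ctr M p i - ctr M p' i = 2 * (k : ℝ) := by
      rw [hk, ctr, ctr]; push_cast; ring
    have h5 : |k| < 1 := by
      have : |(k : ℝ)| < 1 := by
        rw [h4, abs_mul, abs_two] at h3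
        linarith [abs_nonneg (k : ℝ)]
      exact_mod_cast this
    have h6 : k = 0 := Int.abs_lt_one_iff.mp h5
    have a1 := ev_nonneg p.1 i
    have a2 := ev_le p.1 i
    have a3 := ev_nonneg p'.1 i
    have a4 := ev_le p'.1 i
    constructor
    · omega
    · apply Fin.ext
      omega
  refine Prod.ext (ev_injective _ _ fun i => (key i).1) (funext fun i => (key i).2)

theorem comb_prod_eq (M : ℕ) (x : EuclideanSpace ℝ (Fin 5)) :
    ∑ j : Fin 6, ∏ i, comb M (x i - 2 * (ev j i : ℝ)) =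
      ∑ p : Fin 6 × (Fin 5 → Fin M), ∏ i, uI (x i - ctr M p i) := by
  rw [Fintype.sum_prod_type]
  refine Finset.sum_congr rfl fun j _ => ?_
  simp only [comb]
  rw [Finset.prod_univ_sum, Fintype.piFinset_univ]
  refine Finset.sum_congr rfl fun β _ => ?_
  refine Finset.prod_congr rfl fun i _ => ?_
  congr 1
  simp only [ctr]
  ring

theorem prod_uI_eq (M : ℕ) (p : Fin 6 × (Fin 5 → Fin M)) (x : EuclideanSpace ℝ (Fin 5)) [Decidable (∀ i, x i - ctr M p i ∈ Set.Ioc (0 : ℝ) 1)] :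
    ∏ i, uI (x i - ctr M p i) = if (∀ i, x i - ctr M p i ∈ Set.Ioc (0 : ℝ) 1) then 1 else 0 := by
  split_ifs with h
  · refine Finset.prod_eq_one fun i _ => ?_
    rw [uI, Set.indicator_of_mem (h i)]
  · push Not at h
    obtain ⟨i, hi⟩ := h
    refine Finset.prod_eq_zero (Finset.mem_univ i) ?_
    rw [uI, Set.indicator_of_notMem hi]

theorem indicator_Om (M : ℕ) (x : EuclideanSpace ℝ (Fin 5)) :
    (Om M).indicator (fun _ => (1 : ℂ)) x = ∑ j : Fin 6, ∏ i, comb M (x i - 2 * (ev j i : ℝ)) := by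
  classical
  rw [comb_prod_eq]
  by_cases hx : x ∈ Om M
  · rw [Set.indicator_of_mem hx]
    obtain ⟨p, hp⟩ := hx
    rw [Finset.sum_eq_single p]
    · rw [prod_uI_eq, if_pos hp]
    · intro p' _ hp'
      rw [prod_uI_eq, if_neg]
      intro h
      exact hp' (ctr_unique h hp)
    · intro h; exact absurd (Finset.mem_univ _) h
  · rw [Set.indicator_of_notMem hx]
    symm
    refine Finset.sum_eq_zero fun p _ => ?_
    rw [prod_uI_eq, if_neg]
    intro h
    exact hx ⟨p, h⟩

theorem exp_inner_eq (x ξ : EuclideanSpace ℝ (Fin 5)) :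
    Complex.exp (-(2 * (Real.pi : ℂ) * Complex.I * ((inner ℝ x ξ : ℝ) : ℂ))) =
      ∏ i, ch (x i * ξ i) := by
  simp only [ch]
  rw [← Complex.exp_sum]
  congr 1
  rw [PiLp.inner_apply]
  simp only [RCLike.inner_apply, conj_trivial]
  push_cast
  rw [Finset.mul_sum, ← Finset.sum_neg_distrib]
  refine Finset.sum_congr rfl fun i _ => ?_
  ring

theorem integral_prod_euclidean (f : Fin 5 → ℝ → ℂ) :
    ∫ x : EuclideanSpace ℝ (Fin 5), ∏ i, f i (x i) = ∏ i, ∫ x, f i x := by
  rw [← integral_fintype_prod_volume_eq_prod]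
  exact (PiLp.volume_preserving_ofLp (Fin 5)).integral_comp
    (MeasurableEquiv.toLp 2 (Fin 5 → ℝ)).symm.measurableEmbedding (fun y => ∏ i, f i (y i))

theorem integrable_prod_euclidean (f : Fin 5 → ℝ → ℂ) (hf : ∀ i, Integrable (f i)) :
    Integrable (fun x : EuclideanSpace ℝ (Fin 5) => ∏ i, f i (x i)) := by
  have h : Integrable (fun y : Fin 5 → ℝ => ∏ i, f i (y i)) := Integrable.fintype_prod hf
  exact ((PiLp.volume_preserving_ofLp (Fin 5)).integrable_comp_emb
    (MeasurableEquiv.toLp 2 (Fin 5 → ℝ)).symm.measurableEmbedding).mpr h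

theorem integrable_comb_mul (M : ℕ) (a b ξ : ℝ) :
    Integrable (fun x : ℝ => (comb M (x - a) * comb M (x - b)) * ch (x * ξ)) := by
  have : (fun x : ℝ => (comb M (x - a) * comb M (x - b)) * ch (x * ξ)) =
      fun x => ∑ c : Fin M, ∑ c' : Fin M, (uI (x - (a + 6 * (c : ℕ))) *
        uI (x - (b + 6 * (c' : ℕ)))) * ch (x * ξ) := by
    funext x
    rw [comb, comb, Finset.sum_mul_sum, Finset.sum_mul]
    refine Finset.sum_congr rfl fun c _ => ?_
    rw [Finset.sum_mul]
    refine Finset.sum_congr rfl fun c' _ => ?_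
    rw [show x - a - 6 * ((c : ℕ) : ℝ) = x - (a + 6 * ((c : ℕ) : ℝ)) by ring,
      show x - b - 6 * ((c' : ℕ) : ℝ) = x - (b + 6 * ((c' : ℕ) : ℝ)) by ring]
  rw [this]
  refine integrable_finsetSum _ fun c _ => integrable_finsetSum _ fun c' _ => ?_
  exact integrable_uI_mul _ _ _

theorem integral_comb_shift (M : ℕ) (a b ξ : ℝ) :
    ∫ x : ℝ, (comb M (x - a) * comb M (x - b)) * ch (x * ξ) = ch (a * ξ) * cv M (b - a) ξ := by
  rw [cv, ← integral_const_mul, ← integral_add_right_eq_self _ a]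
  refine integral_congr_ae (Filter.Eventually.of_forall fun x => ?_)
  simp only
  rw [show x + a - a = x by ring, show x + a - b = x - (b - a) by ring,
    show (x + a) * ξ = x * ξ + a * ξ by ring, ch_add]
  ring

theorem amb_formula (M : ℕ) (t ξ : EuclideanSpace ℝ (Fin 5)) :
    amb (Om M) (t, ξ) = ∑ j : Fin 6, ∑ k : Fin 6, ∏ i,
      (ch (2 * (ev j i : ℝ) * ξ i) * cv M (t i + 2 * (ev k i : ℝ) - 2 * (ev j i : ℝ)) (ξ i)) := by
  rw [amb]
  have h1 : ∀ y : EuclideanSpace ℝ (Fin 5),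
      ((Om M).indicator (fun _ => (1 : ℂ)) y * (Om M).indicator (fun _ => (1 : ℂ)) (y - t)) *
        Complex.exp (-(2 * (Real.pi : ℂ) * Complex.I * ((inner ℝ y ξ : ℝ) : ℂ))) =
      ∑ j : Fin 6, ∑ k : Fin 6, ∏ i, ((comb M (y i - 2 * (ev j i : ℝ)) *
        comb M (y i - (t i + 2 * (ev k i : ℝ)))) * ch (y i * ξ i)) := by
    intro y
    rw [indicator_Om, indicator_Om, exp_inner_eq, Finset.sum_mul_sum, Finset.sum_mul]
    refine Finset.sum_congr rfl fun j _ => ?_
    rw [Finset.sum_mul]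
    refine Finset.sum_congr rfl fun k _ => ?_
    rw [← Finset.prod_mul_distrib, ← Finset.prod_mul_distrib]
    refine Finset.prod_congr rfl fun i _ => ?_
    rw [show (y - t) i = y i - t i from rfl,
      show y i - t i - 2 * (ev k i : ℝ) = y i - (t i + 2 * (ev k i : ℝ)) by ring]
  simp only [h1]
  rw [integral_finsetSum]
  · refine Finset.sum_congr rfl fun j _ => ?_
    rw [integral_finsetSum]
    · refine Finset.sum_congr rfl fun k _ => ?_
      rw [integral_prod_euclidean (fun i x => (comb M (x - 2 * (ev j i : ℝ)) *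
        comb M (x - (t i + 2 * (ev k i : ℝ)))) * ch (x * ξ i))]
      refine Finset.prod_congr rfl fun i _ => ?_
      rw [integral_comb_shift]
    · intro k _
      exact integrable_prod_euclidean (fun i x => (comb M (x - 2 * (ev j i : ℝ)) *
        comb M (x - (t i + 2 * (ev k i : ℝ)))) * ch (x * ξ i))
        (fun i => integrable_comb_mul M _ _ _)
  · intro j _
    refine integrable_finsetSum _ fun k _ => ?_
    exact integrable_prod_euclidean (fun i x => (comb M (x - 2 * (ev j i : ℝ)) *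
        comb M (x - (t i + 2 * (ev k i : ℝ)))) * ch (x * ξ i))
        (fun i => integrable_comb_mul M _ _ _)

/-- If `r` is congruent to a nonzero difference of the vectors `ev`, then the ambiguity function
does not vanish. -/
theorem amb_ne_zero {M : ℕ} {t ξ : EuclideanSpace ℝ (Fin 5)} {r κ : Fin 5 → ℤ} {t' η : Fin 5 → ℝ}
    (ht' : ∀ i, |t' i| < 1) (ht : ∀ i, t i = 2 * r i + t' i) (hr : ∀ i, |r i| + 2 ≤ 3 * M)
    (hξ : ∀ i, |ξ i| < 1) (hκ : ∀ i, 6 * ξ i = κ i + η i) (hη : ∀ i, |η i| * M < 1)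
    {j j' : Fin 6} (hj : j ≠ j') (hjr : ∀ i, (r i - (ev j i - ev j' i)) % 3 = 0) :
    amb (Om M) (t, ξ) ≠ 0 := by
  rw [amb_formula]
  have hzero : ∀ k k' : Fin 6, ¬ (k = j ∧ k' = j') → ∏ i,
      (ch (2 * (ev k i : ℝ) * ξ i) * cv M (t i + 2 * (ev k' i : ℝ) - 2 * (ev k i : ℝ)) (ξ i)) = 0 := by
    intro k k' hkk
    have hex : ∃ i, ¬ ((ev j i - ev j' i - (ev k i - ev k' i)) % 3 = 0) := by
      by_contra hcon
      push Not at hcon
      exact hkk (ev_sidon j j' k k' hj hcon)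
    obtain ⟨i, hi⟩ := hex
    refine Finset.prod_eq_zero (Finset.mem_univ i) ?_
    rw [cv_eq_zero M (t' := t' i) (r := r i + ev k' i - ev k i), mul_zero]
    · intro hdvd
      apply hi
      have h2 := hjr i
      omega
    · exact ht' i
    · rw [ht i]; push_cast; ring
  rw [Finset.sum_eq_single j]
  · rw [Finset.sum_eq_single j']
    · rw [Finset.prod_ne_zero_iff]
      intro i _
      refine mul_ne_zero (ch_ne_zero _) ?_
      have h2 := hjr i
      have a1 := ev_nonneg j i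
      have a2 := ev_le j i
      have a3 := ev_nonneg j' i
      have a4 := ev_le j' i
      have a5 := hr i
      have hq : r i + ev j' i - ev j i = 3 * ((r i - (ev j i - ev j' i)) / 3) := by omega
      refine cv_ne_zero (q := (r i - (ev j i - ev j' i)) / 3) (t' := t' i) (κ := κ i) (η := η i)
        (ht' i) ?_ ?_ (hξ i) (hκ i) (hη i)
      · have hq' : (r i : ℝ) + ev j' i - ev j i = 3 * (((r i - (ev j i - ev j' i)) / 3 : ℤ) : ℝ) := by
          exact_mod_cast hq
        rw [ht i]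
        linarith
      · rw [abs_lt]
        have := abs_le.mp (show |r i| ≤ 3 * (M : ℤ) - 2 by linarith)
        omega
    · intro k' _ hk'
      exact hzero j k' (fun h => hk' h.2)
    · intro h; exact absurd (Finset.mem_univ _) h
  · intro k _ hk
    exact Finset.sum_eq_zero fun k' _ => hzero k k' (fun h => hk h.1)
  · intro h; exact absurd (Finset.mem_univ _) h

/-- If `r` is divisible by three and the ambiguity function vanishes, then the corresponding
exponential sum over the vectors `ev` vanishes. -/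
theorem sum_eq_zero_of_amb {M : ℕ} {t ξ : EuclideanSpace ℝ (Fin 5)} {r κ : Fin 5 → ℤ}
    {t' η : Fin 5 → ℝ}
    (ht' : ∀ i, |t' i| < 1) (ht : ∀ i, t i = 2 * r i + t' i) (hr : ∀ i, |r i| + 2 ≤ 3 * M)
    (hξ : ∀ i, |ξ i| < 1) (hκ : ∀ i, 6 * ξ i = κ i + η i) (hη : ∀ i, |η i| * M < 1)
    (hr3 : ∀ i, (r i) % 3 = 0) (h0 : amb (Om M) (t, ξ) = 0) :
    ∑ j : Fin 6, ∏ i, ch (2 * (ev j i : ℝ) * ξ i) = 0 := by
  rw [amb_formula] at h0
  have h1 : ∀ j : Fin 6, ∑ k : Fin 6, ∏ i,
      (ch (2 * (ev j i : ℝ) * ξ i) * cv M (t i + 2 * (ev k i : ℝ) - 2 * (ev j i : ℝ)) (ξ i)) =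
      (∏ i, ch (2 * (ev j i : ℝ) * ξ i)) * ∏ i, cv M (t i) (ξ i) := by
    intro j
    rw [Finset.sum_eq_single j]
    · rw [← Finset.prod_mul_distrib]
      refine Finset.prod_congr rfl fun i _ => ?_
      congr 2
      ring
    · intro k _ hk
      have hex : ∃ i, ¬ ((ev k i - ev j i) % 3 = 0) := by
        by_contra hcon
        push Not at hcon
        exact hk (ev_diag k j hcon)
      obtain ⟨i, hi⟩ := hex
      refine Finset.prod_eq_zero (Finset.mem_univ i) ?_
      rw [cv_eq_zero M (t' := t' i) (r := r i + ev k i - ev j i), mul_zero]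
      · intro hdvd
        apply hi
        have h2 := hr3 i
        omega
      · exact ht' i
      · rw [ht i]; push_cast; ring
    · intro h; exact absurd (Finset.mem_univ _) h
  simp only [h1] at h0
  rw [← Finset.sum_mul] at h0
  rcases mul_eq_zero.mp h0 with h2 | h2
  · exact h2
  · exfalso
    rw [Finset.prod_eq_zero_iff] at h2
    obtain ⟨i, _, hi⟩ := h2
    have a5 := hr i
    have h3 := hr3 i
    refine cv_ne_zero (q := (r i) / 3) (t' := t' i) (κ := κ i) (η := η i)
        (ht' i) ?_ ?_ (hξ i) (hκ i) (hη i) hi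
    · have hq : r i = 3 * ((r i) / 3) := by omega
      have hq' : (r i : ℝ) = 3 * (((r i) / 3 : ℤ) : ℝ) := by exact_mod_cast hq
      rw [ht i]
      linarith
    · rw [abs_lt]
      have := abs_le.mp (show |r i| ≤ 3 * (M : ℤ) - 2 by linarith)
      omega

end Pool.Agent.MP_7f688b_an
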