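import Mathlib
import Pool.Agent.MP_7f688b_an.Omega

set_option autoImplicit false

open MeasureTheory
open scoped ComplexConjugate

namespace Pool.Agent.MP_7f688b_an

theorem ev_inj_mod : ∀ j k : Fin 6, (∀ i : Fin 5, ((ev j i : ℤ) : ZMod 3) = ((ev k i : ℤ) : ZMod 3)) → j = k := by
  decide

/-- The vectors of `ℂ⁶` attached to a frequency. -/
noncomputable def vec (b : Fin 5 → ℝ) : EuclideanSpace ℂ (Fin 6) :=
  WithLp.toLp 2 (fun j => ∏ i, ch (2 * (ev j i : ℝ) * b i))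

theorem inner_vec (b b' : Fin 5 → ℝ) :
    inner ℂ (vec b') (vec b) = ∑ j : Fin 6, ∏ i, ch (2 * (ev j i : ℝ) * (b i - b' i)) := by
  rw [PiLp.inner_apply]
  refine Finset.sum_congr rfl fun j _ => ?_
  simp only [vec, RCLike.inner_apply]
  rw [map_prod, ← Finset.prod_mul_distrib]
  refine Finset.prod_congr rfl fun i _ => ?_
  rw [← ch_neg, ← ch_add]
  congr 1
  ring

theorem vec_ne_zero (b : Fin 5 → ℝ) : vec b ≠ 0 := by
  intro h
  have h1 : (vec b) 0 = 0 := by rw [h]; rfl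
  have h2 : ∏ i, ch (2 * (ev 0 i : ℝ) * b i) ≠ 0 := Finset.prod_ne_zero_iff.mpr fun i _ => ch_ne_zero _
  exact h2 h1

theorem fiber_card {α : Type*} [DecidableEq α] (F : Finset α) (b : α → Fin 5 → ℝ)
    (h : ∀ p ∈ F, ∀ q ∈ F, p ≠ q → ∑ j : Fin 6, ∏ i, ch (2 * (ev j i : ℝ) * (b p i - b q i)) = 0) :
    F.card ≤ 6 := by
  have h1 : LinearIndependent ℂ (fun p : F => vec (b p)) := by
    refine linearIndependent_of_ne_zero_of_inner_eq_zero (fun p => vec_ne_zero _) ?_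
    intro p q hpq
    rw [inner_vec]
    exact h q q.2 p p.2 (fun hh => hpq (Subtype.ext hh.symm))
  have h2 := h1.fintype_card_le_finrank
  rw [finrank_euclideanSpace_fin, Fintype.card_coe] at h2
  exact h2

theorem count_le {α : Type*} [DecidableEq α] (F : Finset α) (c : α → Fin 5 → ZMod 3)
    (b : α → Fin 5 → ℝ)
    (h1 : ∀ p ∈ F, ∀ q ∈ F, p ≠ q → ∀ j j' : Fin 6, j ≠ j' →
      ¬ ∀ i, c p i - c q i = ((ev j i - ev j' i : ℤ) : ZMod 3))
    (h2 : ∀ p ∈ F, ∀ q ∈ F, p ≠ q → c p = c q →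
      ∑ j : Fin 6, ∏ i, ch (2 * (ev j i : ℝ) * (b p i - b q i)) = 0) :
    F.card ≤ 240 := by
  have hfib : ∀ a ∈ F.image c, (F.filter (fun p => c p = a)).card ≤ 6 := by
    intro a _
    refine fiber_card _ b ?_
    intro p hp q hq hpq
    rw [Finset.mem_filter] at hp hq
    exact h2 p hp.1 q hq.1 hpq (hp.2.trans hq.2.symm)
  have himg : (F.image c).card * 6 ≤ 243 := by
    have hinj : Set.InjOn (fun x : (Fin 5 → ZMod 3) × Fin 6 => fun i => x.1 i + ((ev x.2 i : ℤ) : ZMod 3))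
        ((F.image c) ×ˢ (Finset.univ : Finset (Fin 6)) : Finset _) := by
      rintro ⟨a, j⟩ ha ⟨a', j'⟩ ha' heq
      simp only [Finset.coe_product, Set.mem_prod, Finset.mem_coe, Finset.mem_image] at ha ha'
      obtain ⟨⟨p, hp, rfl⟩, _⟩ := ha
      obtain ⟨⟨q, hq, rfl⟩, _⟩ := ha'
      simp only at heq
      have heq' : ∀ i, c p i + ((ev j i : ℤ) : ZMod 3) = c q i + ((ev j' i : ℤ) : ZMod 3) :=
        fun i => congrFun heq i
      by_cases hpq : p = q
      · subst hpq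
        have : j = j' := ev_inj_mod j j' fun i => add_left_cancel (heq' i)
        rw [this]
      · by_cases hj : j' = j
        · subst hj
          have : c p = c q := funext fun i => add_right_cancel (heq' i)
          rw [this]
        · exfalso
          refine h1 p hp q hq hpq j' j hj fun i => ?_
          push_cast
          linear_combination heq' i
    have hcard := Finset.card_le_card_of_injOn (t := (Finset.univ : Finset (Fin 5 → ZMod 3))) _
      (fun x _ => Finset.mem_univ _) hinj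
    rw [Finset.card_product, Finset.card_univ, Finset.card_univ, Fintype.card_fin, Fintype.card_fun,
      ZMod.card, Fintype.card_fin] at hcard
    norm_num at hcard ⊢
    exact hcard
  have hmul := Finset.card_le_mul_card_image (s := F) (f := c) 6 hfib
  omega

/-- One-dimensional time part of the cell. -/
def WA (M : ℕ) : Set ℝ := ⋃ n ∈ Finset.range (3 * M - 1), Set.Ico (2 * (n : ℝ)) (2 * (n : ℝ) + 1)

/-- One-dimensional frequency part of the cell. -/
def WB (M : ℕ) : Set ℝ := ⋃ n ∈ Finset.range 6, Set.Ico ((n : ℝ) / 6) ((n : ℝ) / 6 + 1 / (6 * M))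

/-- The cell. -/
def WW (M : ℕ) : Set (EuclideanSpace ℝ (Fin 5) × EuclideanSpace ℝ (Fin 5)) :=
  {x | ∀ i, x i ∈ WA M} ×ˢ {x | ∀ i, x i ∈ WB M}

theorem measurableSet_WA (M : ℕ) : MeasurableSet (WA M) :=
  Finset.measurableSet_biUnion _ fun _ _ => measurableSet_Ico

theorem measurableSet_WB (M : ℕ) : MeasurableSet (WB M) :=
  Finset.measurableSet_biUnion _ fun _ _ => measurableSet_Ico

theorem volume_WA (M : ℕ) : volume (WA M) = ((3 * M - 1 : ℕ) : ENNReal) := by
  rw [WA, measure_biUnion_finset]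
  · simp
  · intro n _ m _ hnm
    rw [Function.onFun, Set.disjoint_left]
    intro x hx hy
    rw [Set.mem_Ico] at hx hy
    apply hnm
    have h1 : (n : ℝ) < m + 1 := by linarith [hx.1, hy.2]
    have h2 : (m : ℝ) < n + 1 := by linarith [hx.2, hy.1]
    have h3 : n < m + 1 := by exact_mod_cast h1
    have h4 : m < n + 1 := by exact_mod_cast h2
    omega
  · intro n _
    exact measurableSet_Ico

theorem volume_WB {M : ℕ} (hM : 0 < M) : volume (WB M) = ENNReal.ofReal (1 / M) := by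
  have hM' : (0 : ℝ) < M := by exact_mod_cast hM
  have hM1 : (1 : ℝ) ≤ M := by exact_mod_cast hM
  have hle : 1 / (6 * (M : ℝ)) ≤ 1 / 6 := by
    apply one_div_le_one_div_of_le (by norm_num)
    linarith
  rw [WB, measure_biUnion_finset]
  · simp only [Real.volume_Ico, add_sub_cancel_left, Finset.sum_const, Finset.card_range]
    rw [nsmul_eq_mul, ← ENNReal.ofReal_natCast, ← ENNReal.ofReal_mul (by positivity)]
    congr 1
    field_simp
    norm_num
  · intro n _ m _ hnm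
    rw [Function.onFun, Set.disjoint_left]
    intro x hx hy
    rw [Set.mem_Ico] at hx hy
    apply hnm
    have h1 : (n : ℝ) < m + 1 := by linarith [hx.1, hy.2]
    have h2 : (m : ℝ) < n + 1 := by linarith [hx.2, hy.1]
    have h3 : n < m + 1 := by exact_mod_cast h1
    have h4 : m < n + 1 := by exact_mod_cast h2
    omega
  · intro n _
    exact measurableSet_Ico

theorem measurableSet_box {A : Set ℝ} (hA : MeasurableSet A) :
    MeasurableSet {x : EuclideanSpace ℝ (Fin 5) | ∀ i, x i ∈ A} := by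
  have : {x : EuclideanSpace ℝ (Fin 5) | ∀ i, x i ∈ A} =
      ⋂ i, (fun x : EuclideanSpace ℝ (Fin 5) => x i) ⁻¹' A := by
    ext x; simp
  rw [this]
  refine MeasurableSet.iInter fun i => hA.preimage ?_
  fun_prop

theorem volume_box {A : Set ℝ} (hA : MeasurableSet A) :
    volume {x : EuclideanSpace ℝ (Fin 5) | ∀ i, x i ∈ A} = (volume A) ^ 5 := by
  have h1 : {x : EuclideanSpace ℝ (Fin 5) | ∀ i, x i ∈ A} =
      (WithLp.ofLp : EuclideanSpace ℝ (Fin 5) → (Fin 5 → ℝ)) ⁻¹' (Set.univ.pi fun _ => A) := by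
    ext x; simp
  rw [h1, (PiLp.volume_preserving_ofLp (Fin 5)).measure_preimage
    (MeasurableSet.univ_pi fun _ => hA).nullMeasurableSet, volume_pi, Measure.pi_pi]
  simp

theorem measurableSet_WW (M : ℕ) : MeasurableSet (WW M) :=
  (measurableSet_box (measurableSet_WA M)).prod (measurableSet_box (measurableSet_WB M))

theorem volume_WW {M : ℕ} (hM : 0 < M) :
    volume (WW M) = ((3 * M - 1 : ℕ) : ENNReal) ^ 5 * ENNReal.ofReal (1 / M) ^ 5 := by
  rw [WW, Measure.volume_eq_prod, Measure.prod_prod, volume_box (measurableSet_WA M),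
    volume_box (measurableSet_WB M), volume_WA, volume_WB hM]

theorem mem_WA {M : ℕ} {x : ℝ} (h : x ∈ WA M) : ∃ n : ℤ, 0 ≤ n ∧ n + 2 ≤ 3 * M ∧ ⌊x / 2⌋ = n ∧
    2 * (n : ℝ) ≤ x ∧ x < 2 * n + 1 := by
  simp only [WA, Set.mem_iUnion, Finset.mem_range, Set.mem_Ico] at h
  obtain ⟨n, hn, h1, h2⟩ := h
  refine ⟨n, by omega, by omega, ?_, by exact_mod_cast h1, by exact_mod_cast h2⟩
  rw [Int.floor_eq_iff]
  push_cast
  constructor <;> linarith

theorem mem_WB {M : ℕ} {x : ℝ} (h : x ∈ WB M) : ∃ n : ℤ, 0 ≤ n ∧ n ≤ 5 ∧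
    (n : ℝ) / 6 ≤ x ∧ x < (n : ℝ) / 6 + 1 / (6 * M) := by
  simp only [WB, Set.mem_iUnion, Finset.mem_range, Set.mem_Ico] at h
  obtain ⟨n, hn, h1, h2⟩ := h
  exact ⟨n, by omega, by omega, by push_cast; exact h1, by push_cast; exact h2⟩

/-- Data extracted from two points of a translate of the cell. -/
theorem pair_data {M : ℕ} (hM : 0 < M) {u u' : EuclideanSpace ℝ (Fin 5) × EuclideanSpace ℝ (Fin 5)}
    (hu : u ∈ WW M) (hu' : u' ∈ WW M) :
    ∃ (r κ : Fin 5 → ℤ) (t' η : Fin 5 → ℝ), (∀ i, |t' i| < 1) ∧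
      (∀ i, (u - u').1 i = 2 * r i + t' i) ∧ (∀ i, |r i| + 2 ≤ 3 * M) ∧
      (∀ i, |(u - u').2 i| < 1) ∧ (∀ i, 6 * (u - u').2 i = κ i + η i) ∧ (∀ i, |η i| * M < 1) ∧
      (∀ i, r i = ⌊u.1 i / 2⌋ - ⌊u'.1 i / 2⌋) := by
  have hM' : (0 : ℝ) < M := by exact_mod_cast hM
  have hM1 : (1 : ℝ) ≤ M := by exact_mod_cast hM
  have hle : 1 / (6 * (M : ℝ)) ≤ 1 / 6 := by
    apply one_div_le_one_div_of_le (by norm_num)
    linarith
  rw [WW, Set.mem_prod] at hu hu'
  have hA : ∀ i, ∃ n : ℤ, 0 ≤ n ∧ n + 2 ≤ 3 * M ∧ ⌊u.1 i / 2⌋ = n ∧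
    2 * (n : ℝ) ≤ u.1 i ∧ u.1 i < 2 * n + 1 := fun i => mem_WA (hu.1 i)
  have hA' : ∀ i, ∃ n : ℤ, 0 ≤ n ∧ n + 2 ≤ 3 * M ∧ ⌊u'.1 i / 2⌋ = n ∧
    2 * (n : ℝ) ≤ u'.1 i ∧ u'.1 i < 2 * n + 1 := fun i => mem_WA (hu'.1 i)
  have hB : ∀ i, ∃ n : ℤ, 0 ≤ n ∧ n ≤ 5 ∧
    (n : ℝ) / 6 ≤ u.2 i ∧ u.2 i < (n : ℝ) / 6 + 1 / (6 * M) := fun i => mem_WB (hu.2 i)
  have hB' : ∀ i, ∃ n : ℤ, 0 ≤ n ∧ n ≤ 5 ∧
    (n : ℝ) / 6 ≤ u'.2 i ∧ u'.2 i < (n : ℝ) / 6 + 1 / (6 * M) := fun i => mem_WB (hu'.2 i)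
  choose n hn0 hn1 hnf hn2 hn3 using hA
  choose n' hn0' hn1' hnf' hn2' hn3' using hA'
  choose k hk0 hk1 hk2 hk3 using hB
  choose k' hk0' hk1' hk2' hk3' using hB'
  have hsub1 : ∀ i, (u - u').1 i = u.1 i - u'.1 i := fun i => rfl
  have hsub2 : ∀ i, (u - u').2 i = u.2 i - u'.2 i := fun i => rfl
  refine ⟨fun i => n i - n' i, fun i => k i - k' i,
    fun i => (u.1 i - 2 * n i) - (u'.1 i - 2 * n' i),
    fun i => (6 * u.2 i - k i) - (6 * u'.2 i - k' i), ?_, ?_, ?_, ?_, ?_, ?_, ?_⟩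
  · intro i
    rw [abs_lt]
    constructor <;> linarith [hn2 i, hn3 i, hn2' i, hn3' i]
  · intro i
    rw [hsub1]; push_cast; ring
  · intro i
    have h1 : |n i - n' i| ≤ 3 * (M : ℤ) - 2 := by
      rw [abs_le]
      have a1 := hn0 i
      have a2 := hn1 i
      have a3 := hn0' i
      have a4 := hn1' i
      constructor <;> omega
    linarith
  · intro i
    rw [hsub2, abs_lt]
    have b0 : (0 : ℝ) ≤ k i := by exact_mod_cast hk0 i
    have b1 : (k i : ℝ) ≤ 5 := by exact_mod_cast hk1 i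
    have b0' : (0 : ℝ) ≤ k' i := by exact_mod_cast hk0' i
    have b1' : (k' i : ℝ) ≤ 5 := by exact_mod_cast hk1' i
    constructor <;> linarith [hk2 i, hk3 i, hk2' i, hk3' i]
  · intro i
    rw [hsub2]; push_cast; ring
  · intro i
    have e : 1 / (6 * (M : ℝ)) * 6 = 1 / M := by field_simp
    have h2 : |(6 * u.2 i - k i) - (6 * u'.2 i - k' i)| < 1 / M := by
      rw [abs_lt]
      constructor <;> linarith [hk2 i, hk3 i, hk2' i, hk3' i]
    calc |(6 * u.2 i - k i) - (6 * u'.2 i - k' i)| * M < 1 / M * M :=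
          mul_lt_mul_of_pos_right h2 hM'
      _ = 1 := by field_simp
  · intro i
    rw [hnf i, hnf' i]

theorem volume_pos_fin {M : ℕ} (hM : 0 < M) :
    0 < volume (Om M) ∧ volume (Om M) < ⊤ ∧ MeasurableSet (Om M) := by
  have hOm : Om M = ⋃ p : Fin 6 × (Fin 5 → Fin M),
      (fun x : EuclideanSpace ℝ (Fin 5) => x - WithLp.toLp 2 (ctr M p)) ⁻¹'
        {x | ∀ i, x i ∈ Set.Ioc (0 : ℝ) 1} := by
    ext x
    simp [Om]
  have hbm : MeasurableSet {x : EuclideanSpace ℝ (Fin 5) | ∀ i, x i ∈ Set.Ioc (0 : ℝ) 1} :=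
    measurableSet_box measurableSet_Ioc
  have hcm : ∀ p, MeasurableSet ((fun x : EuclideanSpace ℝ (Fin 5) => x - WithLp.toLp 2 (ctr M p)) ⁻¹'
        {x | ∀ i, x i ∈ Set.Ioc (0 : ℝ) 1}) := fun p => hbm.preimage (by fun_prop)
  have hcv : ∀ p, volume ((fun x : EuclideanSpace ℝ (Fin 5) => x - WithLp.toLp 2 (ctr M p)) ⁻¹'
        {x | ∀ i, x i ∈ Set.Ioc (0 : ℝ) 1}) = 1 := fun p => by
    rw [(measurePreserving_sub_right volume _).measure_preimage hbm.nullMeasurableSet,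
      volume_box measurableSet_Ioc]
    simp
  refine ⟨?_, ?_, ?_⟩
  · have p0 : Fin 6 × (Fin 5 → Fin M) := (0, fun _ => ⟨0, hM⟩)
    calc (0 : ENNReal) < 1 := one_pos
      _ = _ := (hcv p0).symm
      _ ≤ volume (Om M) := by
        rw [hOm]
        exact measure_mono (Set.subset_iUnion (fun p : Fin 6 × (Fin 5 → Fin M) =>
          (fun x : EuclideanSpace ℝ (Fin 5) => x - WithLp.toLp 2 (ctr M p)) ⁻¹'
            {x | ∀ i, x i ∈ Set.Ioc (0 : ℝ) 1}) p0)
  · rw [hOm]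
    refine (measure_iUnion_fintype_le _ _).trans_lt ?_
    simp only [hcv]
    rw [Finset.sum_const, nsmul_eq_mul, mul_one]
    exact ENNReal.natCast_lt_top _
  · rw [hOm]
    exact MeasurableSet.iUnion hcm

/-- No orthogonal Gabor basis has the indicator function of `Om 200` as window. -/
theorem no_gabor_basis (S : Set (EuclideanSpace ℝ (Fin 5) × EuclideanSpace ℝ (Fin 5)))
    (horth : ∀ p ∈ S, ∀ q ∈ S, p ≠ q → ∫ x, gab (Om 200) p x * conj (gab (Om 200) q x) = 0)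
    (hcomp : ∀ f : EuclideanSpace ℝ (Fin 5) → ℂ, MemLp f 2 volume →
      (∀ p ∈ S, ∫ x, f x * conj (gab (Om 200) p x) = 0) → f =ᵐ[volume] 0) : False := by
  obtain ⟨hpos, hfin, hmeas⟩ := volume_pos_fin (M := 200) (by norm_num)
  have hbound := density_bound hmeas hpos hfin horth hcomp (measurableSet_WW 200) 240 (by
    intro v F hF
    classical
    refine count_le F (fun p i => ((⌊(v + p).1 i / 2⌋ : ℤ) : ZMod 3)) (fun p i => (v + p).2 i) ?_ ?_
    · intro p hp q hq hpq j j' hj hcon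
      obtain ⟨r, κ, t', η, h1, h2, h3, h4, h5, h6, h7⟩ :=
        pair_data (M := 200) (by norm_num) (hF p hp).2 (hF q hq).2
      have h0 : amb (Om 200) (p - q) = 0 :=
        amb_eq_zero_of_orth _ _ _ (horth p (hF p hp).1 q (hF q hq).1 hpq)
      have hsub : v + p - (v + q) = p - q := by abel
      rw [hsub] at h2 h4 h5
      refine amb_ne_zero (M := 200) (t := (p - q).1) (ξ := (p - q).2) h1 h2 h3 h4 h5 h6 hj ?_ h0
      intro i
      have h8 := hcon i
      rw [← Int.cast_sub, ← h7 i, ← sub_eq_zero, ← Int.cast_sub,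
        ZMod.intCast_zmod_eq_zero_iff_dvd] at h8
      exact Int.emod_eq_zero_of_dvd (by exact_mod_cast h8)
    · intro p hp q hq hpq hc
      obtain ⟨r, κ, t', η, h1, h2, h3, h4, h5, h6, h7⟩ :=
        pair_data (M := 200) (by norm_num) (hF p hp).2 (hF q hq).2
      have h0 : amb (Om 200) (p - q) = 0 :=
        amb_eq_zero_of_orth _ _ _ (horth p (hF p hp).1 q (hF q hq).1 hpq)
      have hsub : v + p - (v + q) = p - q := by abel
      rw [hsub] at h2 h4 h5
      have h9 := sum_eq_zero_of_amb (M := 200) (t := (p - q).1) (ξ := (p - q).2)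
        h1 h2 h3 h4 h5 h6 ?_ h0
      · have e : ∀ i, (v + p).2 i - (v + q).2 i = (p - q).2 i := by
          intro i
          have : (v + p - (v + q)).2 i = (p - q).2 i := by rw [hsub]
          exact this
        simp only [e]
        exact h9
      · intro i
        have h8 := congrFun hc i
        simp only at h8
        rw [← sub_eq_zero, ← Int.cast_sub, ← h7 i, ZMod.intCast_zmod_eq_zero_iff_dvd] at h8
        exact Int.emod_eq_zero_of_dvd (by exact_mod_cast h8))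
  rw [volume_WW (by norm_num)] at hbound
  have h1 : ((3 * 200 - 1 : ℕ) : ENNReal) ^ 5 * ENNReal.ofReal (1 / (200 : ℕ)) ^ 5 =
      ENNReal.ofReal ((599 / 200 : ℝ) ^ 5) := by
    rw [← mul_pow, ENNReal.ofReal_pow (by norm_num)]
    congr 1
    rw [← ENNReal.ofReal_natCast, ← ENNReal.ofReal_mul (by positivity)]
    congr 1
    norm_num
  rw [h1, show ((240 : ℕ) : ENNReal) = ENNReal.ofReal 240 by simp,
    ENNReal.ofReal_le_ofReal_iff (by norm_num)] at hbound
  norm_num at hbound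

end Pool.Agent.MP_7f688b_an
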