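import Mathlib
import Pool.Agent.MP_7f688b_an.Comb

set_option autoImplicit false

open MeasureTheory UnitAddTorus

namespace Pool.Agent.MP_7f688b_an

noncomputable local instance : MeasureSpace UnitAddCircle := ⟨AddCircle.haarAddCircle⟩

/-- The half-open unit box. -/
def ubox : Set (Fin 5 → ℝ) := {x | ∀ i, x i ∈ Set.Ioc ((0 : Fin 5 → ℝ) i) ((0 : Fin 5 → ℝ) i + 1)}

theorem measurableSet_ubox : MeasurableSet ubox := by
  have : ubox = Set.univ.pi (fun i => Set.Ioc ((0 : Fin 5 → ℝ) i) ((0 : Fin 5 → ℝ) i + 1)) := by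
    ext x; simp [ubox]
  rw [this]
  exact MeasurableSet.univ_pi fun _ => measurableSet_Ioc

theorem mFourier_coe (k : Fin 5 → ℤ) (x : Fin 5 → ℝ) :
    mFourier (-k) (fun i => (x i : UnitAddCircle)) = ∏ i, ch (x i * k i) := by
  simp only [mFourier, ContinuousMap.coe_mk]
  refine Finset.prod_congr rfl fun i _ => ?_
  rw [fourier_coe_apply, ch]
  congr 1
  simp only [Pi.neg_apply]
  push_cast
  ring

/-- Uniqueness of Fourier coefficients on the unit box. -/
theorem fourier_unique (F : (Fin 5 → ℝ) → ℂ) (hF : MemLp F 2 (volume.restrict ubox))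
    (h0 : ∀ k : Fin 5 → ℤ, ∫ x in ubox, F x * ∏ i, ch (x i * k i) = 0) :
    F =ᵐ[volume.restrict ubox] 0 := by
  let e := measurableEquivPiIoc (0 : Fin 5 → ℝ)
  have he : MeasurePreserving e volume (Measure.comap Subtype.val volume) :=
    measurePreserving_equivPiIoc 0
  let G : {x : Fin 5 → ℝ // ∀ i, x i ∈ Set.Ioc ((0 : Fin 5 → ℝ) i) ((0 : Fin 5 → ℝ) i + 1)} → ℂ :=
    fun y => F y.1
  let F' : UnitAddTorus (Fin 5) → ℂ := fun z => G (e z)
  have hmap : Measure.map Subtype.val (Measure.comap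
      (Subtype.val : {x : Fin 5 → ℝ // ∀ i, x i ∈ Set.Ioc ((0 : Fin 5 → ℝ) i)
        ((0 : Fin 5 → ℝ) i + 1)} → (Fin 5 → ℝ)) volume) = volume.restrict ubox :=
    map_comap_subtype_coe measurableSet_ubox volume
  have hG : MemLp G 2 (Measure.comap Subtype.val volume) := by
    rw [← hmap] at hF
    exact (memLp_map_measure_iff hF.1 measurable_subtype_coe.aemeasurable).mp hF
  have hF' : MemLp F' 2 volume := hG.comp_measurePreserving he
  have hcoe : ∀ x ∈ ubox, F' (fun i => (x i : UnitAddCircle)) = F x := by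
    intro x hx
    have h1 : e.symm ⟨x, hx⟩ = fun i => (x i : UnitAddCircle) := rfl
    have h2 : e (fun i => (x i : UnitAddCircle)) = ⟨x, hx⟩ := by
      rw [← h1, MeasurableEquiv.apply_symm_apply]
    change G (e (fun i => (x i : UnitAddCircle))) = F x
    rw [h2]
  have hcoef : ∀ k, mFourierCoeff F' k = 0 := by
    intro k
    rw [mFourierCoeff_eq_integral F' k 0, ← h0 k]
    refine setIntegral_congr_fun measurableSet_ubox fun x hx => ?_
    change (mFourier (-k) (fun i => (x i : UnitAddCircle))) • F' (fun i => (x i : UnitAddCircle)) = _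
    rw [hcoe x hx, mFourier_coe, smul_eq_mul, mul_comm]
  have hz : (hF'.toLp F' : Lp ℂ 2 (volume : Measure (UnitAddTorus (Fin 5)))) = 0 := by
    have h1 : (mFourierBasis (d := Fin 5)).repr (hF'.toLp F') = 0 := by
      ext i
      rw [mFourierBasis_repr]
      have : mFourierCoeff (hF'.toLp F') i = mFourierCoeff F' i := by
        refine integral_congr_ae ?_
        filter_upwards [hF'.coeFn_toLp] with z hz
        rw [hz]
      rw [this, hcoef]
      rfl
    exact (LinearIsometryEquiv.map_eq_zero_iff _).mp h1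
  have hae : ∀ᵐ z, F' z = 0 := by
    have h1 := (Lp.eq_zero_iff_ae_eq_zero).mp hz
    filter_upwards [h1, hF'.coeFn_toLp] with z h2 h3
    rw [← h3, h2]
    rfl
  have hae2 : ∀ᵐ y ∂(Measure.comap (Subtype.val : {x : Fin 5 → ℝ // ∀ i,
      x i ∈ Set.Ioc ((0 : Fin 5 → ℝ) i) ((0 : Fin 5 → ℝ) i + 1)} → (Fin 5 → ℝ)) volume), G y = 0 := by
    have h1 := (he.symm e).quasiMeasurePreserving.ae hae
    filter_upwards [h1] with y hy
    have h2 : e (e.symm y) = y := MeasurableEquiv.apply_symm_apply _ _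
    change G (e (e.symm y)) = 0 at hy
    rwa [h2] at hy
  have hae3 : ∀ᵐ x ∂(volume.restrict ubox), F x = 0 := by
    rw [← hmap]
    exact ((MeasurableEmbedding.subtype_coe measurableSet_ubox).ae_map_iff).mpr hae2
  exact hae3

end Pool.Agent.MP_7f688b_an
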