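import Mathlib
import Pool.Agent.MP_7f688b_an.Omega
import Pool.Agent.MP_7f688b_an.Count
import Pool.Agent.MP_7f688b_an.Torus

set_option autoImplicit false

open MeasureTheory
open scoped ComplexConjugate

namespace Pool.Agent.MP_7f688b_an

/-- The logarithmic Hadamard matrix. -/
def lam : Fin 6 → Fin 5 → ℤ :=
  ![![0, 0, 0, 0, 0], ![0, 1, 1, 2, 2], ![1, 0, 2, 2, 1], ![1, 2, 0, 1, 2], ![2, 2, 1, 0, 1],
    ![2, 1, 2, 1, 0]]

theorem lam_balanced : ∀ l l' : Fin 6, l ≠ l' → ∀ c : ZMod 3,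
    (Finset.univ.filter (fun j : Fin 6 =>
      ((∑ i, ev j i * (lam l i - lam l' i) : ℤ) : ZMod 3) = c)).card = 2 := by
  decide

theorem ch_third (s : ℤ) : ch ((s : ℝ) / 3) = ch (((s : ZMod 3).val : ℝ) / 3) := by
  have h1 : (((s : ZMod 3).val : ℕ) : ℤ) = s % 3 := by
    rw [ZMod.val_intCast]; rfl
  have h2 : s = 3 * (s / 3) + s % 3 := by omega
  have h3 : (s : ℝ) = 3 * ((s / 3 : ℤ) : ℝ) + (((s : ZMod 3).val : ℕ) : ℝ) := by
    have h4 : (s : ℝ) = ((3 * (s / 3) + s % 3 : ℤ) : ℝ) := by exact_mod_cast h2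
    have h5 : ((s % 3 : ℤ) : ℝ) = (((s : ZMod 3).val : ℕ) : ℝ) := by
      rw [← h1]; push_cast; rfl
    rw [h4, Int.cast_add, Int.cast_mul, h5]
    push_cast
    ring
  have h6 : (s : ℝ) / 3 = ((s / 3 : ℤ) : ℝ) + (((s : ZMod 3).val : ℕ) : ℝ) / 3 := by
    rw [h3]; ring
  rw [h6, ch_add, ch_int, one_mul]

theorem sum_ch_third : ∑ c : ZMod 3, ch (((c : ZMod 3).val : ℝ) / 3) = 0 := by
  have h1 : ∑ c : ZMod 3, ch (((c : ZMod 3).val : ℝ) / 3) = ∑ k ∈ Finset.range 3, ch (1 / 3) ^ k := by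
    rw [Finset.sum_range]
    refine Fintype.sum_congr _ _ fun c => ?_
    rw [← ch_nat_mul]
    congr 1
    change ((ZMod.val c : ℕ) : ℝ) / 3 = ((c.val : ℕ) : ℝ) * (1 / 3)
    have : ((ZMod.val c : ℕ) : ℝ) = ((c.val : ℕ) : ℝ) := rfl
    rw [this]
    ring
  rw [h1, geom_sum_eq, ← ch_nat_mul]
  · have : ((3 : ℕ) : ℝ) * (1 / 3) = ((1 : ℤ) : ℝ) := by norm_num
    rw [this, ch_int]
    simp
  · refine ch_ne_one_of_abs_lt (by norm_num) ?_
    rw [abs_of_nonneg (by norm_num)]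
    norm_num

/-- The rows of the Hadamard matrix are orthogonal. -/
theorem hadamard {l l' : Fin 6} (h : l ≠ l') :
    ∑ j : Fin 6, ch (((∑ i, ev j i * (lam l i - lam l' i) : ℤ) : ℝ) / 3) = 0 := by
  have h1 : ∀ j : Fin 6, ch (((∑ i, ev j i * (lam l i - lam l' i) : ℤ) : ℝ) / 3) =
      ch (((((∑ i, ev j i * (lam l i - lam l' i) : ℤ) : ZMod 3)).val : ℝ) / 3) := fun j => ch_third _
  simp only [h1]
  rw [← Finset.sum_fiberwise (s := Finset.univ)
    (g := fun j : Fin 6 => ((∑ i, ev j i * (lam l i - lam l' i) : ℤ) : ZMod 3))]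
  have h2 : ∀ c : ZMod 3, ∑ j ∈ Finset.univ.filter (fun j : Fin 6 =>
      ((∑ i, ev j i * (lam l i - lam l' i) : ℤ) : ZMod 3) = c),
      ch (((((∑ i, ev j i * (lam l i - lam l' i) : ℤ) : ZMod 3)).val : ℝ) / 3) =
      2 * ch (((c : ZMod 3).val : ℝ) / 3) := by
    intro c
    have h3 : ∀ j ∈ Finset.univ.filter (fun j : Fin 6 =>
      ((∑ i, ev j i * (lam l i - lam l' i) : ℤ) : ZMod 3) = c),
      ch (((((∑ i, ev j i * (lam l i - lam l' i) : ℤ) : ZMod 3)).val : ℝ) / 3) =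
        ch (((c : ZMod 3).val : ℝ) / 3) := by
      intro j hj
      rw [Finset.mem_filter] at hj
      rw [hj.2]
    rw [Finset.sum_congr rfl h3, Finset.sum_const, lam_balanced l l' h c, nsmul_eq_mul]
    norm_num
  simp only [h2]
  rw [← Finset.mul_sum, sum_ch_third, mul_zero]

theorem geom_comb_zero {M : ℕ} {a κ : ℤ} (ha : a ≠ 0) (haM : |a| < M) {x : ℝ}
    (hx : x = κ + a / M) : ∑ b : Fin M, ch x ^ (b : ℕ) = 0 := by
  have hM : 0 < M := by
    rcases Nat.eq_zero_or_pos M with h | h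
    · subst h; simp at haM; linarith [abs_nonneg a]
    · exact h
  have hM' : (0 : ℝ) < M := by exact_mod_cast hM
  have h1 : ch x = ch (a / M) := by rw [hx, ch_add, ch_int, one_mul]
  have h2 : ch ((a : ℝ) / M) ≠ 1 := by
    refine ch_ne_one_of_abs_lt ?_ ?_
    · exact div_ne_zero (by exact_mod_cast ha) hM'.ne'
    · rw [abs_div, abs_of_pos hM', div_lt_one hM']
      exact_mod_cast haM
  rw [h1, Fin.sum_univ_eq_sum_range (fun b : ℕ => ch ((a : ℝ) / M) ^ b) M, geom_sum_eq h2,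
    ← ch_nat_mul]
  have : (M : ℝ) * (a / M) = a := by field_simp
  rw [this, ch_int]
  simp

/-- Vanishing of the structure factor. -/
theorem structure_zero {M : ℕ} (hM : 0 < M) {ξ : Fin 5 → ℝ} {k a : Fin 5 → ℤ} {l l' : Fin 6}
    (haM : ∀ i, |a i| < M)
    (hξ : ∀ i, ξ i = k i + a i / (6 * M) + ((lam l i - lam l' i : ℤ) : ℝ) / 6)
    (hne : (∃ i, a i ≠ 0) ∨ l ≠ l') :
    (∑ j : Fin 6, ∏ i, ch (2 * (ev j i : ℝ) * ξ i)) *
      ∏ i, (∑ b : Fin M, ch (6 * ξ i) ^ (b : ℕ)) = 0 := by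
  have hM' : (0 : ℝ) < M := by exact_mod_cast hM
  by_cases hex : ∃ i, a i ≠ 0
  · obtain ⟨i, hi⟩ := hex
    have : (∑ b : Fin M, ch (6 * ξ i) ^ (b : ℕ)) = 0 := by
      refine geom_comb_zero (κ := 6 * k i + (lam l i - lam l' i)) hi (haM i) ?_
      rw [hξ i]
      push_cast
      field_simp
      ring
    rw [Finset.prod_eq_zero (Finset.mem_univ i) this, mul_zero]
  · have hl : l ≠ l' := by
      rcases hne with h | h
      · exact absurd h hex
      · exact h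
    push Not at hex
    have h1 : ∀ j : Fin 6, ∏ i, ch (2 * (ev j i : ℝ) * ξ i) =
        ch (((∑ i, ev j i * (lam l i - lam l' i) : ℤ) : ℝ) / 3) := by
      intro j
      have h2 : ∀ i, ch (2 * (ev j i : ℝ) * ξ i) =
          ch (((ev j i * (lam l i - lam l' i) : ℤ) : ℝ) / 3) := by
        intro i
        have : 2 * (ev j i : ℝ) * ξ i = ((2 * ev j i * k i : ℤ) : ℝ) +
            ((ev j i * (lam l i - lam l' i) : ℤ) : ℝ) / 3 := by
          rw [hξ i, hex i]; push_cast; ring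
        rw [this, ch_add, ch_int, one_mul]
      simp only [h2]
      simp only [ch]
      rw [← Complex.exp_sum]
      congr 1
      push_cast
      rw [Finset.sum_neg_distrib, ← Finset.mul_sum, Finset.sum_div]
    simp only [h1]
    rw [hadamard hl, zero_mul]

/-- The fractional part of the frequencies. -/
noncomputable def fr (M : ℕ) (μ : Fin 6 × (Fin 5 → Fin M)) (i : Fin 5) : ℝ :=
  ((μ.2 i : ℕ) : ℝ) / (6 * M) + (lam μ.1 i : ℝ) / 6

/-- The frequencies. -/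
noncomputable def spt (M : ℕ) (k : Fin 5 → ℤ) (μ : Fin 6 × (Fin 5 → Fin M)) :
    EuclideanSpace ℝ (Fin 5) := WithLp.toLp 2 (fun i => (k i : ℝ) + fr M μ i)

/-- The spectrum of `Om M`. -/
def spec (M : ℕ) : Set (EuclideanSpace ℝ (Fin 5)) :=
  {ξ | ∃ k μ, ξ = spt M k μ}

theorem fr_sub {M : ℕ} (μ μ' : Fin 6 × (Fin 5 → Fin M)) (i : Fin 5) :
    fr M μ i - fr M μ' i = (((μ.2 i : ℕ) : ℤ) - ((μ'.2 i : ℕ) : ℤ) : ℤ) / (6 * M) +
      ((lam μ.1 i - lam μ'.1 i : ℤ) : ℝ) / 6 := by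
  simp only [fr]
  push_cast
  ring

theorem amb_zero_formula (M : ℕ) (ξ : EuclideanSpace ℝ (Fin 5)) :
    amb (Om M) (0, ξ) = (∑ j : Fin 6, ∏ i, ch (2 * (ev j i : ℝ) * ξ i)) *
      ∏ i, ((∑ b : Fin M, ch (6 * ξ i) ^ (b : ℕ)) * w 0 (ξ i)) := by
  rw [amb_formula, Finset.sum_mul]
  refine Finset.sum_congr rfl fun j _ => ?_
  rw [Finset.sum_eq_single j]
  · rw [← Finset.prod_mul_distrib]
    refine Finset.prod_congr rfl fun i _ => ?_
    rw [← cv_zero]
    congr 2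
    simp
  · intro k _ hk
    have hex : ∃ i, ¬ ((ev k i - ev j i) % 3 = 0) := by
      by_contra hcon
      push Not at hcon
      exact hk (ev_diag k j hcon)
    obtain ⟨i, hi⟩ := hex
    refine Finset.prod_eq_zero (Finset.mem_univ i) ?_
    rw [cv_eq_zero M (t' := 0) (r := ev k i - ev j i), mul_zero]
    · intro hdvd
      apply hi
      omega
    · simp
    · simp only [PiLp.zero_apply]; push_cast; ring
  · intro h; exact absurd (Finset.mem_univ _) h

theorem amb_zero_eq_setIntegral {M : ℕ} (hM : 0 < M) (ξ : EuclideanSpace ℝ (Fin 5)) :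
    amb (Om M) (0, ξ) = ∫ x in Om M,
      Complex.exp (-(2 * (Real.pi : ℂ) * Complex.I * ((inner ℝ x ξ : ℝ) : ℂ))) := by
  rw [← integral_indicator (volume_pos_fin hM).2.2, amb]
  refine integral_congr_ae (Filter.Eventually.of_forall fun y => ?_)
  simp only [sub_zero]
  by_cases h : y ∈ Om M
  · simp [h]
  · simp [h]

theorem spec_orth {M : ℕ} (hM : 0 < M) (x x' : EuclideanSpace ℝ (Fin 5)) (hx : x ∈ spec M)
    (hx' : x' ∈ spec M) (hne : x ≠ x') :
    ∫ y in Om M, Complex.exp (2 * (Real.pi : ℂ) * Complex.I * ((inner ℝ y (x - x') : ℝ) : ℂ)) = 0 := by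
  obtain ⟨k, μ, rfl⟩ := hx
  obtain ⟨k', μ', rfl⟩ := hx'
  have h1 : ∀ y : EuclideanSpace ℝ (Fin 5),
      Complex.exp (2 * (Real.pi : ℂ) * Complex.I * ((inner ℝ y (spt M k μ - spt M k' μ') : ℝ) : ℂ)) =
      Complex.exp (-(2 * (Real.pi : ℂ) * Complex.I *
        ((inner ℝ y (spt M k' μ' - spt M k μ) : ℝ) : ℂ))) := by
    intro y
    congr 1
    simp only [inner_sub_right]
    push_cast
    ring
  simp only [h1]
  rw [← amb_zero_eq_setIntegral hM, amb_zero_formula, Finset.prod_mul_distrib, ← mul_assoc]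
  have hξ : ∀ i, (spt M k' μ' - spt M k μ) i = ((k' i - k i : ℤ) : ℝ) +
      ((((μ'.2 i : ℕ) : ℤ) - ((μ.2 i : ℕ) : ℤ) : ℤ) : ℝ) / (6 * M) +
      ((lam μ'.1 i - lam μ.1 i : ℤ) : ℝ) / 6 := by
    intro i
    have h2 : (spt M k' μ' - spt M k μ) i = ((k' i : ℝ) + fr M μ' i) - ((k i : ℝ) + fr M μ i) := rfl
    have h3 := fr_sub μ' μ i
    rw [h2]
    push_cast at h3 ⊢
    linarith
  have haM : ∀ i, |(((μ'.2 i : ℕ) : ℤ) - ((μ.2 i : ℕ) : ℤ))| < (M : ℤ) := by
    intro i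
    rw [abs_lt]
    have a1 := (μ'.2 i).2
    have a2 := (μ.2 i).2
    constructor <;> omega
  by_cases hcase : (∃ i, (((μ'.2 i : ℕ) : ℤ) - ((μ.2 i : ℕ) : ℤ)) ≠ 0) ∨ μ'.1 ≠ μ.1
  · rw [structure_zero hM haM hξ hcase, zero_mul]
  · push Not at hcase
    obtain ⟨hc1, hc2⟩ := hcase
    have hμ : μ' = μ := by
      refine Prod.ext hc2 (funext fun i => Fin.ext ?_)
      have := hc1 i
      omega
    subst hμ
    have hk : ∃ i, k' i - k i ≠ 0 := by
      by_contra hcon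
      push Not at hcon
      apply hne
      have : k = k' := funext fun i => by have := hcon i; omega
      rw [this]
    obtain ⟨i, hi⟩ := hk
    have h4 : w 0 ((spt M k' μ' - spt M k μ') i) = 0 := by
      have h5 : (spt M k' μ' - spt M k μ') i = ((k' i - k i : ℤ) : ℝ) := by
        rw [hξ i]; simp
      rw [h5]
      exact w_zero_int hi
    rw [Finset.prod_eq_zero (f := fun i => w 0 ((spt M k' μ' - spt M k μ') i))
      (Finset.mem_univ i) h4, mul_zero]

/-- The matrix of exponentials. -/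
noncomputable def U (M : ℕ) : Matrix (Fin 6 × (Fin 5 → Fin M)) (Fin 6 × (Fin 5 → Fin M)) ℂ :=
  fun μ p => ∏ i, ch (ctr M p i * fr M μ i)

theorem U_mul {M : ℕ} (hM : 0 < M) :
    U M * (U M).conjTranspose = ((Fintype.card (Fin 6 × (Fin 5 → Fin M)) : ℕ) : ℂ) • (1 : Matrix _ _ ℂ) := by
  ext μ μ'
  rw [Matrix.mul_apply, Matrix.smul_apply]
  have h1 : ∀ p, U M μ p * (U M).conjTranspose p μ' =
      ∏ i, ch (ctr M p i * (fr M μ i - fr M μ' i)) := by
    intro p
    rw [Matrix.conjTranspose_apply]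
    simp only [U, RCLike.star_def, map_prod]
    rw [← Finset.prod_mul_distrib]
    refine Finset.prod_congr rfl fun i _ => ?_
    rw [← ch_neg, ← ch_add]
    congr 1
    ring
  simp only [h1]
  by_cases hμ : μ = μ'
  · subst hμ
    simp [ch_zero]
  · rw [Matrix.one_apply_ne hμ, smul_zero, Fintype.sum_prod_type]
    have h2 : ∀ j : Fin 6, ∑ β : Fin 5 → Fin M, ∏ i, ch (ctr M (j, β) i * (fr M μ i - fr M μ' i)) =
        (∏ i, ch (2 * (ev j i : ℝ) * (fr M μ i - fr M μ' i))) *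
          ∏ i, (∑ b : Fin M, ch (6 * (fr M μ i - fr M μ' i)) ^ (b : ℕ)) := by
      intro j
      rw [Finset.prod_univ_sum, Fintype.piFinset_univ, Finset.mul_sum]
      refine Finset.sum_congr rfl fun β _ => ?_
      rw [← Finset.prod_mul_distrib]
      refine Finset.prod_congr rfl fun i _ => ?_
      rw [← ch_nat_mul, ← ch_add]
      congr 1
      simp only [ctr]
      ring
    simp only [h2]
    rw [← Finset.sum_mul]
    refine structure_zero hM (k := fun _ => 0)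
      (a := fun i => ((μ.2 i : ℕ) : ℤ) - ((μ'.2 i : ℕ) : ℤ)) (l := μ.1) (l' := μ'.1) ?_ ?_ ?_
    · intro i
      rw [abs_lt]
      have a1 := (μ'.2 i).2
      have a2 := (μ.2 i).2
      constructor <;> omega
    · intro i
      rw [fr_sub]
      push_cast
      ring
    · by_contra hcon
      push Not at hcon
      apply hμ
      refine Prod.ext hcon.2 (funext fun i => Fin.ext ?_)
      have := hcon.1 i
      omega

theorem U_injective {M : ℕ} (hM : 0 < M) (v : Fin 6 × (Fin 5 → Fin M) → ℂ)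
    (hv : (U M).mulVec v = 0) : v = 0 := by
  set c : ℂ := ((Fintype.card (Fin 6 × (Fin 5 → Fin M)) : ℕ) : ℂ) with hc
  have hc0 : c ≠ 0 := by
    rw [hc]
    have : Nonempty (Fin 6 × (Fin 5 → Fin M)) := ⟨(0, fun _ => ⟨0, hM⟩)⟩
    exact_mod_cast Fintype.card_ne_zero
  have h1 : U M * (c⁻¹ • (U M).conjTranspose) = 1 := by
    rw [Matrix.mul_smul, U_mul hM, smul_smul, inv_mul_cancel₀ hc0, one_smul]
  have h2 : (c⁻¹ • (U M).conjTranspose) * U M = 1 := mul_eq_one_comm.mp h1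
  calc v = (1 : Matrix _ _ ℂ).mulVec v := (Matrix.one_mulVec v).symm
    _ = 0 := by rw [← h2, ← Matrix.mulVec_mulVec, hv, Matrix.mulVec_zero]

end Pool.Agent.MP_7f688b_an
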