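import Mathlib
import Pool.Agent.MP_7f688b_an.Spectral

set_option autoImplicit false

open MeasureTheory
open scoped ComplexConjugate

namespace Pool.Agent.MP_7f688b_an

/-- The parametrisation of a cube. -/
noncomputable def phi (M : ℕ) (p : Fin 6 × (Fin 5 → Fin M)) (y : Fin 5 → ℝ) :
    EuclideanSpace ℝ (Fin 5) := WithLp.toLp 2 y + WithLp.toLp 2 (ctr M p)

/-- The cubes. -/
def cub (M : ℕ) (p : Fin 6 × (Fin 5 → Fin M)) : Set (EuclideanSpace ℝ (Fin 5)) :=
  {x | ∀ i, x i - ctr M p i ∈ Set.Ioc (0 : ℝ) 1}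

theorem Om_eq (M : ℕ) : Om M = ⋃ p, cub M p := by
  ext x; simp [Om, cub]

theorem measurableSet_cub (M : ℕ) (p : Fin 6 × (Fin 5 → Fin M)) : MeasurableSet (cub M p) := by
  have : cub M p = (fun x : EuclideanSpace ℝ (Fin 5) => x - WithLp.toLp 2 (ctr M p)) ⁻¹'
        {x | ∀ i, x i ∈ Set.Ioc (0 : ℝ) 1} := by
    ext x; simp [cub]
  rw [this]
  exact (measurableSet_box measurableSet_Ioc).preimage (by fun_prop)

theorem disjoint_cub (M : ℕ) : Pairwise (Function.onFun Disjoint (cub M)) := by
  intro p p' hne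
  rw [Function.onFun, Set.disjoint_left]
  intro x hx hx'
  exact hne (ctr_unique hx hx')

theorem phi_mp (M : ℕ) (p : Fin 6 × (Fin 5 → Fin M)) : MeasurePreserving (phi M p) volume volume :=
  (measurePreserving_add_right volume (WithLp.toLp 2 (ctr M p))).comp
    (PiLp.volume_preserving_toLp (Fin 5))

theorem phi_emb (M : ℕ) (p : Fin 6 × (Fin 5 → Fin M)) : MeasurableEmbedding (phi M p) :=
  (MeasurableEquiv.addRight (WithLp.toLp 2 (ctr M p) : EuclideanSpace ℝ (Fin 5))).measurableEmbedding.comp
    (MeasurableEquiv.toLp 2 (Fin 5 → ℝ)).measurableEmbedding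

theorem phi_preimage (M : ℕ) (p : Fin 6 × (Fin 5 → Fin M)) : phi M p ⁻¹' (cub M p) = ubox := by
  ext y
  simp [phi, cub, ubox]

theorem phi_restrict (M : ℕ) (p : Fin 6 × (Fin 5 → Fin M)) :
    MeasurePreserving (phi M p) (volume.restrict ubox) (volume.restrict (cub M p)) := by
  have := (phi_mp M p).restrict_preimage_emb (phi_emb M p) (cub M p)
  rwa [phi_preimage] at this

theorem setIntegral_cub (M : ℕ) (p : Fin 6 × (Fin 5 → Fin M)) (g : EuclideanSpace ℝ (Fin 5) → ℂ) :
    ∫ x in cub M p, g x = ∫ y in ubox, g (phi M p y) :=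
  ((phi_restrict M p).integral_comp (phi_emb M p) g).symm

theorem phi_apply (M : ℕ) (p : Fin 6 × (Fin 5 → Fin M)) (y : Fin 5 → ℝ) (i : Fin 5) :
    (phi M p y) i = y i + ctr M p i := rfl

theorem ctr_int {M : ℕ} (p : Fin 6 × (Fin 5 → Fin M)) (i : Fin 5) :
    ctr M p i = ((2 * ev p.1 i + 6 * ((p.2 i : ℕ) : ℤ) : ℤ) : ℝ) := by
  simp only [ctr]; push_cast; ring

theorem spec_complete {M : ℕ} (hM : 0 < M) (f : EuclideanSpace ℝ (Fin 5) → ℂ)
    (hf : MemLp f 2 (volume.restrict (Om M)))
    (h0 : ∀ l ∈ spec M, ∫ x in Om M,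
      f x * Complex.exp (-(2 * (Real.pi : ℂ) * Complex.I * ((inner ℝ x l : ℝ) : ℂ))) = 0) :
    f =ᵐ[volume.restrict (Om M)] 0 := by
  have hfin : volume (Om M) < ⊤ := (volume_pos_fin hM).2.1
  have hfc : ∀ p, MemLp f 2 (volume.restrict (cub M p)) := fun p =>
    hf.mono_measure (Measure.restrict_mono (by rw [Om_eq]; exact Set.subset_iUnion _ p) le_rfl)
  have hfp : ∀ p, MemLp (fun y => f (phi M p y)) 2 (volume.restrict ubox) := fun p =>
    (hfc p).comp_measurePreserving (phi_restrict M p)
  have hub : volume ubox ≠ ⊤ := by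
    have h1 : volume ubox = 1 := by
      have : ubox = Set.univ.pi (fun i => Set.Ioc ((0 : Fin 5 → ℝ) i) ((0 : Fin 5 → ℝ) i + 1)) := by
        ext x; simp [ubox]
      rw [this, volume_pi, Measure.pi_pi]
      simp
    rw [h1]; exact ENNReal.one_ne_top
  have hfinm : IsFiniteMeasure ((volume : Measure (Fin 5 → ℝ)).restrict ubox) :=
    ⟨by rw [Measure.restrict_apply_univ]; exact hub.lt_top⟩
  -- multiplication by unimodular functions
  have hmul : ∀ (g : (Fin 5 → ℝ) → ℂ) (a : Fin 5 → ℝ), MemLp g 2 (volume.restrict ubox) →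
      MemLp (fun y => g y * ∏ i, ch (y i * a i)) 2 (volume.restrict ubox) := by
    intro g a hg
    refine hg.of_le ?_ (Filter.Eventually.of_forall fun y => ?_)
    · refine hg.1.mul ?_
      refine Continuous.aestronglyMeasurable ?_
      refine continuous_finsetProd _ fun i _ => ?_
      exact continuous_ch.comp (by fun_prop)
    · rw [norm_mul, norm_prod]
      simp [norm_ch]
  -- the auxiliary functions
  set F : (Fin 6 × (Fin 5 → Fin M)) → (Fin 5 → ℝ) → ℂ := fun μ y =>
    (∑ p, U M μ p * f (phi M p y)) * ∏ i, ch (y i * fr M μ i) with hF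
  have hFmem : ∀ μ, MemLp (F μ) 2 (volume.restrict ubox) := by
    intro μ
    refine hmul _ _ ?_
    refine memLp_finsetSum _ fun p _ => ?_
    exact (hfp p).const_mul _
  have hcoef : ∀ μ (k : Fin 5 → ℤ), ∫ y in ubox, F μ y * ∏ i, ch (y i * k i) = 0 := by
    intro μ k
    rw [← h0 (spt M k μ) ⟨k, μ, rfl⟩, Om_eq]
    rw [integral_iUnion_fintype (measurableSet_cub M) (disjoint_cub M)]
    · simp only [setIntegral_cub]
      rw [← integral_finsetSum]
      · refine integral_congr_ae (Filter.Eventually.of_forall fun y => ?_)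
        simp only [hF]
        rw [Finset.sum_mul, Finset.sum_mul]
        refine Finset.sum_congr rfl fun p _ => ?_
        rw [exp_inner_eq]
        have h1 : ∏ i, ch ((phi M p y) i * (spt M k μ) i) =
            U M μ p * (∏ i, ch (y i * fr M μ i)) * ∏ i, ch (y i * k i) := by
          rw [U, ← Finset.prod_mul_distrib, ← Finset.prod_mul_distrib]
          refine Finset.prod_congr rfl fun i _ => ?_
          have h2 : (phi M p y) i * (spt M k μ) i =
              ctr M p i * fr M μ i + y i * fr M μ i + y i * k i +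
                (((2 * ev p.1 i + 6 * ((p.2 i : ℕ) : ℤ)) * k i : ℤ) : ℝ) := by
            have h3 : (phi M p y) i * (spt M k μ) i = (y i + ctr M p i) * (k i + fr M μ i) := rfl
            have h4 := ctr_int p i
            rw [h3]
            push_cast at h4 ⊢
            rw [← h4]
            ring
          rw [h2, ch_add, ch_add, ch_add, ch_int, mul_one]
        rw [h1]
        ring
      · intro p _
        refine MemLp.integrable (q := 2) (by norm_num) ?_
        have h5 : (fun y => f (phi M p y) * Complex.exp (-(2 * (Real.pi : ℂ) * Complex.I *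
            ((inner ℝ (phi M p y) (spt M k μ) : ℝ) : ℂ)))) =
            fun y => ((∏ i, ch (ctr M p i * (spt M k μ) i)) * f (phi M p y)) *
              ∏ i, ch (y i * (spt M k μ) i) := by
          funext y
          rw [exp_inner_eq]
          have h6 : ∏ i, ch ((phi M p y) i * (spt M k μ) i) =
              (∏ i, ch (ctr M p i * (spt M k μ) i)) * ∏ i, ch (y i * (spt M k μ) i) := by
            rw [← Finset.prod_mul_distrib]
            refine Finset.prod_congr rfl fun i _ => ?_
            rw [phi_apply, ← ch_add]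
            congr 1
            ring
          rw [h6]
          ring
        rw [h5]
        exact hmul _ _ ((hfp p).const_mul _)
    · intro p
      have hfm : IsFiniteMeasure ((volume : Measure (EuclideanSpace ℝ (Fin 5))).restrict (cub M p)) :=
        ⟨by
          rw [Measure.restrict_apply_univ]
          exact (measure_mono (by rw [Om_eq]; exact Set.subset_iUnion _ p)).trans_lt hfin⟩
      refine MemLp.integrable (q := 2) (by norm_num) ?_
      refine (hfc p).of_le ?_ (Filter.Eventually.of_forall fun y => ?_)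
      · refine (hfc p).1.mul ?_
        refine Continuous.aestronglyMeasurable ?_
        fun_prop
      · rw [norm_mul, norm_exp_aux, mul_one]
  have hF0 : ∀ μ, F μ =ᵐ[volume.restrict ubox] 0 := fun μ =>
    fourier_unique (F μ) (hFmem μ) (hcoef μ)
  have hall : ∀ᵐ y ∂(volume.restrict ubox), ∀ μ, F μ y = 0 :=
    ae_all_iff.mpr fun μ => hF0 μ
  have hz : ∀ᵐ y ∂(volume.restrict ubox), ∀ p, f (phi M p y) = 0 := by
    filter_upwards [hall] with y hy
    have h1 : (U M).mulVec (fun p => f (phi M p y)) = 0 := by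
      funext μ
      have h2 := hy μ
      simp only [hF] at h2
      rcases mul_eq_zero.mp h2 with h3 | h3
      · exact h3
      · exfalso
        rw [Finset.prod_eq_zero_iff] at h3
        obtain ⟨i, _, hi⟩ := h3
        exact ch_ne_zero _ hi
    have h4 := U_injective hM _ h1
    intro p
    exact congrFun h4 p
  rw [Om_eq]
  refine (ae_restrict_iUnion_iff _ _).mpr fun p => ?_
  rw [← (phi_restrict M p).map_eq]
  refine (phi_emb M p).ae_map_iff.mpr ?_
  filter_upwards [hz] with y hy
  exact hy p

end Pool.Agent.MP_7f688b_an
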